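import Pool.Agent.H429R4.TR.TriMain
import Pool.Agent.H526R2.LS.Apsp

/-!
# All-pairs shortest paths by randomized circuits with arbitrary gates: the lower bound
-/

namespace Pool.Agent.TH810.CW

open Finset
open Pool.Agent.H429R4.FW Pool.Agent.H429R4.TR
open Pool.Agent.H522R3.SW (Vec Pat PP PP_apply enc enc_mem code card_code exists_columns)
open Pool.Agent.H526R2.LS (dist dist_eq_two)

set_option linter.unusedSectionVars false

/-- The weight matrix as the inputs of a circuit. -/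
def encW {V : Type} (W : V → V → ℕ∞) : V × V → ℕ∞ := fun e => W e.1 e.2

/-- The transform of a weight matrix under a map of the vertices. -/
def pullW {V : Type} (f : V → V) (W : V → V → ℕ∞) : V → V → ℕ∞ := fun u v => W (f u) (f v)

/-- The circuit computes all the distances for the weight matrix `W`: the distance from `u` to `v`
is obtained by `dec` from the value of the gate `out u v`. -/
def RightD {V D L : Type} (C : Circuit ℕ∞ (V × V) D L) (out : V → V → C.Gate) (dec : D → ℕ∞)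
    (W : V → V → ℕ∞) : Prop := ∀ u v, dec (value encW C (out u v) W) = dist W u v

variable {r : ℕ} {Z : Type}

section act

variable {κ : ℕ} (a : Fin r → Vec κ)

/-- the action -/
def actW (μ : Gp κ) (W : Kx r Z → Kx r Z → ℕ∞) : Kx r Z → Kx r Z → ℕ∞ :=
  pullW (swG (cmp (PP a μ))) W

theorem actW_isAction : IsAction (actW (Z := Z) a) where
  zero W := by
    funext p q
    change W (swG (cmp (PP a 0)) p) (swG (cmp (PP a 0)) q) = W p q
    rw [map_zero, cmp_zero, swG_zero, swG_zero]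
  add μ ν W := by
    funext p q
    change W (swG (cmp (PP a (μ + ν))) p) (swG (cmp (PP a (μ + ν))) q) =
      W (swG (cmp (PP a ν)) (swG (cmp (PP a μ)) p)) (swG (cmp (PP a ν)) (swG (cmp (PP a μ)) q))
    rw [swG_swG, swG_swG, map_add, cmp_add]

end act

/-- the arcs between the six vertices of a triple -/
def Pad (t : Fin 2 → ZMod 2) (i j : Fin 3) (c c' : ZMod 2) : Prop :=
  (i = 0 ∧ j = 1 ∧ c' = c + t 0) ∨ (i = 1 ∧ j = 0 ∧ c = c' + t 0) ∨
    (i = 1 ∧ j = 2 ∧ c' = c + t 1) ∨ (i = 2 ∧ j = 1 ∧ c = c' + t 1)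

instance (t : Fin 2 → ZMod 2) (i j : Fin 3) (c c' : ZMod 2) : Decidable (Pad t i j c c') := by
  unfold Pad
  infer_instance

theorem Pad.symm {t : Fin 2 → ZMod 2} {i j : Fin 3} {c c' : ZMod 2} (h : Pad t i j c c') :
    Pad t j i c' c := by
  rcases h with ⟨h1, h2, h3⟩ | ⟨h1, h2, h3⟩ | ⟨h1, h2, h3⟩ | ⟨h1, h2, h3⟩
  · exact Or.inr (Or.inl ⟨h2, h1, h3⟩)
  · exact Or.inl ⟨h2, h1, h3⟩
  · exact Or.inr (Or.inr (Or.inr ⟨h2, h1, h3⟩))
  · exact Or.inr (Or.inr (Or.inl ⟨h2, h1, h3⟩))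

/-- the hard graphs: undirected, unweighted, two paths with two edges -/
def pth (T : Fin r × Fin r × Fin r) (t : Fin 2 → ZMod 2) : Kx r Z → Kx r Z → ℕ∞
  | .inl (i, v, c), .inl (j, v', c') =>
      if v = mem3 T i ∧ v' = mem3 T j ∧ Pad t i j c c' then 1 else ⊤
  | _, _ => ⊤

theorem pth_inl (T : Fin r × Fin r × Fin r) (t : Fin 2 → ZMod 2) (i j : Fin 3) (v v' : Fin r)
    (c c' : ZMod 2) : pth (Z := Z) T t (.inl (i, v, c)) (.inl (j, v', c')) =
      if v = mem3 T i ∧ v' = mem3 T j ∧ Pad t i j c c' then 1 else ⊤ := rfl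

theorem pth_one_or (T : Fin r × Fin r × Fin r) (t : Fin 2 → ZMod 2) (p q : Kx r Z) :
    pth T t p q = 1 ∨ pth T t p q = ⊤ := by
  rcases p with ⟨i, v, c⟩ | z
  · rcases q with ⟨j, v', c'⟩ | z'
    · rw [pth_inl]
      split_ifs
      · exact Or.inl rfl
      · exact Or.inr rfl
    · exact Or.inr rfl
  · exact Or.inr rfl

theorem pth_symm (T : Fin r × Fin r × Fin r) (t : Fin 2 → ZMod 2) (p q : Kx r Z) :
    pth T t p q = pth T t q p := by
  rcases p with ⟨i, v, c⟩ | z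
  · rcases q with ⟨j, v', c'⟩ | z'
    · rw [pth_inl, pth_inl]
      have h : (v = mem3 T i ∧ v' = mem3 T j ∧ Pad t i j c c') ↔
          (v' = mem3 T j ∧ v = mem3 T i ∧ Pad t j i c' c) :=
        ⟨fun h => ⟨h.2.1, h.1, h.2.2.symm⟩, fun h => ⟨h.2.1, h.1, h.2.2.symm⟩⟩
      simp only [h]
    · rfl
  · rcases q with ⟨j, v', c'⟩ | z' <;> rfl

theorem pth_self (T : Fin r × Fin r × Fin r) (t : Fin 2 → ZMod 2) (p : Kx r Z) :
    pth T t p p = ⊤ := by
  rcases p with ⟨i, v, c⟩ | z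
  · rw [pth_inl, if_neg]
    rintro ⟨_, _, h⟩
    have key : ∀ (t : Fin 2 → ZMod 2) (i : Fin 3) (c : ZMod 2), ¬ Pad t i i c c := by decide
    exact key t i c h
  · rfl

theorem pth_eq_one {T : Fin r × Fin r × Fin r} {t : Fin 2 → ZMod 2} {i j : Fin 3} {v v' : Fin r}
    {c c' : ZMod 2} : pth (Z := Z) T t (.inl (i, v, c)) (.inl (j, v', c')) = 1 ↔
      v = mem3 T i ∧ v' = mem3 T j ∧ Pad t i j c c' := by
  rw [pth_inl]
  constructor
  · intro h
    by_contra hne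
    rw [if_neg hne] at h
    exact ENat.top_ne_one h
  · intro h
    rw [if_pos h]

/-- the distance between the ends of the paths -/
theorem dist_pth (T : Fin r × Fin r × Fin r) (t : Fin 2 → ZMod 2) :
    dist (pth (Z := Z) T t) (.inl (0, T.1, 0)) (.inl (2, T.2.2, 0)) = 2 ↔ t 0 + t 1 = 0 := by
  have huv : (Sum.inl (0, T.1, 0) : Kx r Z) ≠ .inl (2, T.2.2, 0) := by
    intro h
    have h1 : (0 : Fin 3) = 2 := congrArg Prod.fst (Sum.inl_injective h)
    exact absurd h1 (by decide)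
  have htop : pth (Z := Z) T t (.inl (0, T.1, 0)) (.inl (2, T.2.2, 0)) = ⊤ := by
    rw [pth_inl, if_neg]
    rintro ⟨_, _, h⟩
    have key : ∀ t : Fin 2 → ZMod 2, ¬ Pad t 0 2 0 0 := by decide
    exact key t h
  rw [dist_eq_two (pth_one_or T t) huv htop]
  constructor
  · rintro ⟨m, h1, h2⟩
    rcases m with ⟨j, v, c⟩ | z
    · have h3 := (pth_eq_one.1 h1).2.2
      have h4 := (pth_eq_one.1 h2).2.2
      have key : ∀ (t : Fin 2 → ZMod 2) (j : Fin 3) (c : ZMod 2), Pad t 0 j 0 c → Pad t j 2 c 0 →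
          t 0 + t 1 = 0 := by decide
      exact key t j c h3 h4
    · exact absurd h1 ENat.top_ne_one
  · intro h
    refine ⟨.inl (1, T.2.1, t 0), pth_eq_one.2 ⟨rfl, rfl, ?_⟩, pth_eq_one.2 ⟨rfl, rfl, ?_⟩⟩
    · exact Or.inl ⟨rfl, rfl, (zero_add _).symm⟩
    · exact Or.inr (Or.inr (Or.inl ⟨rfl, rfl, h.symm⟩))

section one

variable {κ : ℕ} (a : Fin r → Vec κ)

theorem Pad_move : ∀ (t : Fin 2 → ZMod 2) (ξ : Fin 3 → ZMod 2) (i j : Fin 3) (c c' : ZMod 2),
    Pad t i j (c + ξ i) (c' + ξ j) ↔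
      Pad (fun k => t k + (![ξ 0 + ξ 1, ξ 1 + ξ 2] : Fin 2 → ZMod 2) k) i j c c' := by
  intro t ξ i j c c'
  unfold Pad
  constructor
  · rintro (⟨rfl, rfl, h⟩ | ⟨rfl, rfl, h⟩ | ⟨rfl, rfl, h⟩ | ⟨rfl, rfl, h⟩)
    · exact Or.inl ⟨rfl, rfl, (z2_move _ _ _ _ _).1 h⟩
    · exact Or.inr (Or.inl ⟨rfl, rfl, (z2_move _ _ _ _ _).1 h⟩)
    · exact Or.inr (Or.inr (Or.inl ⟨rfl, rfl, (z2_move _ _ _ _ _).1 h⟩))
    · exact Or.inr (Or.inr (Or.inr ⟨rfl, rfl, (z2_move _ _ _ _ _).1 h⟩))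
  · rintro (⟨rfl, rfl, h⟩ | ⟨rfl, rfl, h⟩ | ⟨rfl, rfl, h⟩ | ⟨rfl, rfl, h⟩)
    · exact Or.inl ⟨rfl, rfl, (z2_move _ _ _ _ _).2 h⟩
    · exact Or.inr (Or.inl ⟨rfl, rfl, (z2_move _ _ _ _ _).2 h⟩)
    · exact Or.inr (Or.inr (Or.inl ⟨rfl, rfl, (z2_move _ _ _ _ _).2 h⟩))
    · exact Or.inr (Or.inr (Or.inr ⟨rfl, rfl, (z2_move _ _ _ _ _).2 h⟩))

theorem actW_pth (T : Fin r × Fin r × Fin r) (μ : Gp κ) (t : Fin 2 → ZMod 2) :
    actW (Z := Z) a μ (pth T t) = pth T (t + BT a T μ) := by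
  funext p q
  change pth T t (swG (cmp (PP a μ)) p) (swG (cmp (PP a μ)) q) = _
  rcases p with ⟨i, v, c⟩ | z
  · rcases q with ⟨j, v', c'⟩ | z'
    · change (if v = mem3 T i ∧ v' = mem3 T j ∧ Pad t i j (c + cmp (PP a μ) i v)
        (c' + cmp (PP a μ) j v') then (1 : ℕ∞) else ⊤) =
        if v = mem3 T i ∧ v' = mem3 T j ∧ Pad (t + BT a T μ) i j c c' then (1 : ℕ∞) else ⊤
      have h : (v = mem3 T i ∧ v' = mem3 T j ∧ Pad t i j (c + cmp (PP a μ) i v)
          (c' + cmp (PP a μ) j v')) ↔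
          (v = mem3 T i ∧ v' = mem3 T j ∧ Pad (t + BT a T μ) i j c c') := by
        constructor
        · rintro ⟨rfl, rfl, h⟩
          exact ⟨rfl, rfl, (Pad_move t (xi a T μ) i j c c').1 h⟩
        · rintro ⟨rfl, rfl, h⟩
          exact ⟨rfl, rfl, (Pad_move t (xi a T μ) i j c c').2 h⟩
      simp only [h]
    · rfl
  · rcases q with ⟨j, v', c'⟩ | z' <;> rfl

/-- the parameters on which the weight of an arc depends -/
def locP (T : Fin r × Fin r × Fin r) : Kx r Z × Kx r Z → Set (Fin 2)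
  | (.inl (i, v, _), .inl (j, v', _)) =>
      {s | v = mem3 T i ∧ v' = mem3 T j ∧
        ((s = 0 ∧ ((i = 0 ∧ j = 1) ∨ (i = 1 ∧ j = 0))) ∨
          (s = 1 ∧ ((i = 1 ∧ j = 2) ∨ (i = 2 ∧ j = 1))))}
  | _ => ∅

theorem locP1 (T : Fin r × Fin r × Fin r) (β : Kx r Z × Kx r Z) (t e : Fin 2 → ZMod 2)
    (h : ∀ s ∈ locP T β, e s = 0) : encW (pth T (t + e)) β = encW (pth T t) β := by
  rcases β with ⟨⟨i, v, c⟩ | z, ⟨j, v', c'⟩ | z'⟩
  · change pth (Z := Z) T (t + e) (.inl (i, v, c)) (.inl (j, v', c')) =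
      pth T t (.inl (i, v, c)) (.inl (j, v', c'))
    rw [pth_inl, pth_inl]
    have h1 : (v = mem3 T i ∧ v' = mem3 T j ∧ Pad (t + e) i j c c') ↔
        (v = mem3 T i ∧ v' = mem3 T j ∧ Pad t i j c c') := by
      refine and_congr_right fun h1 => and_congr_right fun h2 => ?_
      have e0 : ((i = 0 ∧ j = 1) ∨ (i = 1 ∧ j = 0)) → (t + e) 0 = t 0 := by
        intro h3
        rw [Pi.add_apply, h 0 ⟨h1, h2, Or.inl ⟨rfl, h3⟩⟩, add_zero]
      have e1 : ((i = 1 ∧ j = 2) ∨ (i = 2 ∧ j = 1)) → (t + e) 1 = t 1 := by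
        intro h3
        rw [Pi.add_apply, h 1 ⟨h1, h2, Or.inr ⟨rfl, h3⟩⟩, add_zero]
      unfold Pad
      constructor
      · rintro (⟨h3, h4, h5⟩ | ⟨h3, h4, h5⟩ | ⟨h3, h4, h5⟩ | ⟨h3, h4, h5⟩)
        · rw [e0 (Or.inl ⟨h3, h4⟩)] at h5
          exact Or.inl ⟨h3, h4, h5⟩
        · rw [e0 (Or.inr ⟨h3, h4⟩)] at h5
          exact Or.inr (Or.inl ⟨h3, h4, h5⟩)
        · rw [e1 (Or.inl ⟨h3, h4⟩)] at h5
          exact Or.inr (Or.inr (Or.inl ⟨h3, h4, h5⟩))
        · rw [e1 (Or.inr ⟨h3, h4⟩)] at h5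
          exact Or.inr (Or.inr (Or.inr ⟨h3, h4, h5⟩))
      · rintro (⟨h3, h4, h5⟩ | ⟨h3, h4, h5⟩ | ⟨h3, h4, h5⟩ | ⟨h3, h4, h5⟩)
        · rw [← e0 (Or.inl ⟨h3, h4⟩)] at h5
          exact Or.inl ⟨h3, h4, h5⟩
        · rw [← e0 (Or.inr ⟨h3, h4⟩)] at h5
          exact Or.inr (Or.inl ⟨h3, h4, h5⟩)
        · rw [← e1 (Or.inl ⟨h3, h4⟩)] at h5
          exact Or.inr (Or.inr (Or.inl ⟨h3, h4, h5⟩))
        · rw [← e1 (Or.inr ⟨h3, h4⟩)] at h5
          exact Or.inr (Or.inr (Or.inr ⟨h3, h4, h5⟩))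
    simp only [h1]
  · rfl
  · rfl
  · rfl

theorem BT_zero (T : Fin r × Fin r × Fin r) (μ : Gp κ) :
    BT a T μ 0 = xi a T μ 0 + xi a T μ 1 := rfl

theorem BT_one (T : Fin r × Fin r × Fin r) (μ : Gp κ) :
    BT a T μ 1 = xi a T μ 1 + xi a T μ 2 := rfl

theorem locP2 (T : Fin r × Fin r × Fin r) (β : Kx r Z × Kx r Z) (μ : Gp κ)
    (h : ∀ W, encW (actW (Z := Z) a μ W) β = encW W β) :
    ∀ s ∈ locP T β, BT a T μ s = 0 := by
  classical
  intro s hs
  have h1 := h (fun p q => if (p, q) = β then 1 else ⊤)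
  change (if (swG (cmp (PP a μ)) β.1, swG (cmp (PP a μ)) β.2) = β then (1 : ℕ∞) else ⊤) =
    (if (β.1, β.2) = β then (1 : ℕ∞) else ⊤) at h1
  have h2 : (swG (cmp (PP a μ)) β.1, swG (cmp (PP a μ)) β.2) = β := by
    by_contra hne
    rw [if_neg hne, if_pos rfl] at h1
    exact ENat.top_ne_one h1
  rcases β with ⟨⟨i, v, c⟩ | z, ⟨j, v', c'⟩ | z'⟩
  · obtain ⟨rfl, rfl, hs⟩ := hs
    have h3 : swG (cmp (PP a μ)) (.inl (i, mem3 T i, c) : Kx r Z) =
        .inl (i, mem3 T i, c + xi a T μ i) := rfl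
    have h4 : swG (cmp (PP a μ)) (.inl (j, mem3 T j, c') : Kx r Z) =
        .inl (j, mem3 T j, c' + xi a T μ j) := rfl
    have h5 := congrArg Prod.fst h2
    have h6 := congrArg Prod.snd h2
    simp only at h5 h6
    rw [h3] at h5
    rw [h4] at h6
    simp only [Sum.inl.injEq, Prod.mk.injEq, true_and, add_eq_left] at h5 h6
    rcases hs with ⟨rfl, ⟨rfl, rfl⟩ | ⟨rfl, rfl⟩⟩ | ⟨rfl, ⟨rfl, rfl⟩ | ⟨rfl, rfl⟩⟩
    · rw [BT_zero, h5, h6, add_zero]
    · rw [BT_zero, h5, h6, add_zero]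
    · rw [BT_one, h5, h6, add_zero]
    · rw [BT_one, h5, h6, add_zero]
  · exact hs.elim
  · exact hs.elim
  · exact hs.elim

/-- If no gate sees the triple, the circuit errs on half of the graphs. -/
theorem not_sees_errs_pth (T : Fin r × Fin r × Fin r) {D L : Type}
    (C : Circuit ℕ∞ (Kx r Z × Kx r Z) D L) (out : Kx r Z → Kx r Z → C.Gate) (dec : D → ℕ∞)
    (hno : ¬ ∃ g, SeesT a (vfixer (actW_isAction (Z := Z) a) encW C g) T) :
    ∃ e : Fin 2 → ZMod 2, ∀ t,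
      ¬ RightD C out dec (pth T t) ∨ ¬ RightD C out dec (pth T (t + e)) := by
  have hno' : ∀ g, NoTwo (BT a T) (vfixer (actW_isAction (Z := Z) a) encW C g) := by
    intro g s s' hs hs'
    by_contra hne
    apply hno
    refine ⟨g, fun μ hμ => ?_⟩
    have h01 : Dead (BT a T) (vfixer (actW_isAction (Z := Z) a) encW C g) 0 ∧
        Dead (BT a T) (vfixer (actW_isAction (Z := Z) a) encW C g) 1 := by
      fin_cases s <;> fin_cases s'
      · exact absurd rfl hne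
      · exact ⟨hs, hs'⟩
      · exact ⟨hs', hs⟩
      · exact absurd rfl hne
    exact ⟨h01.1 μ hμ, h01.2 μ hμ⟩
  set g₀ := out (.inl (0, T.1, 0)) (.inl (2, T.2.2, 0)) with hg₀
  have hF : NoTwo (BT a T) (fixer (actW_isAction (Z := Z) a) (value encW C g₀)) :=
    (hno' g₀).mono (vfixer_le _ encW C g₀)
  obtain ⟨s, hs⟩ : ∃ s, ¬ Dead (BT a T)
      (fixer (actW_isAction (Z := Z) a) (value encW C g₀)) s := by
    by_contra hcon
    push Not at hcon
    have := hF 0 1 (hcon 0) (hcon 1)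
    exact absurd this (by decide)
  refine ⟨Pi.single s 1, fun t => ?_⟩
  by_contra hcon
  rw [not_or, not_not, not_not] at hcon
  obtain ⟨h1, h2⟩ := hcon
  have h3 := value_shift' (actW_isAction (Z := Z) a) encW C (pth T)
    (fun μ t => actW_pth a T μ t) (locP T) (fun β t e h => locP1 T β t e h)
    (fun β μ h => locP2 a T β μ h) hno' g₀ t (Pi.single s 1) (by
      intro s' hs'
      have hne : s' ≠ s := by
        rintro rfl
        exact hs hs'
      exact Pi.single_eq_of_ne hne _)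
  have h4 := h1 (.inl (0, T.1, 0)) (.inl (2, T.2.2, 0))
  have h5 := h2 (.inl (0, T.1, 0)) (.inl (2, T.2.2, 0))
  rw [← hg₀] at h4 h5
  rw [h3, h4] at h5
  have h6 : (t 0 + t 1 = 0) ↔ ((t + Pi.single s 1 : Fin 2 → ZMod 2) 0 +
      (t + Pi.single s 1 : Fin 2 → ZMod 2) 1 = 0) := by
    rw [← dist_pth (Z := Z) T t, ← dist_pth (Z := Z) T (t + Pi.single s 1), h5]
  have key : ∀ (t : Fin 2 → ZMod 2) (s : Fin 2), ¬ (t 0 + t 1 = 0 ↔
      (t + Pi.single s 1 : Fin 2 → ZMod 2) 0 + (t + Pi.single s 1 : Fin 2 → ZMod 2) 1 = 0) := by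
    decide
  exact key t s h6

end one

theorem numWiringsW_mono {V D L : Type} [Finite V] (C : Circuit ℕ∞ (V × V) D L)
    {A' : Set ((V → V → ℕ∞) → (V → V → ℕ∞))} {A : Set (V → V)} (h : A' ⊆ pullW '' A) :
    numWirings encW C A' ≤ numWirings encW C (pullW '' A) := by
  have := C.finite
  have hfin : (wirings encW C (pullW '' A)).Finite := by
    have h1 : wirings encW C (pullW '' A) ⊆
        Set.range fun p : C.Gate × (V → V) => view encW C p.1 (pullW p.2) := by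
      rintro _ ⟨g, _, ⟨f, _, rfl⟩, rfl⟩
      exact ⟨(g, f), rfl⟩
    exact (Set.finite_range _).subset h1
  refine Nat.card_mono hfin ?_
  rintro _ ⟨g, f, hf, rfl⟩
  exact ⟨g, f, h hf, rfl⟩

open Classical in
/-- **Randomized circuits for all-pairs shortest paths.** -/
theorem apsp_bound (r : ℕ) (hr : 1 ≤ r) :
    ∃ Γ : AddSubgroup (Fin r → ZMod 2), Nat.card Γ ≤ 2 * r ∧
      ∀ (Z Ω : Type) [Fintype Z] [Fintype Ω] (p : Ω → ℝ),
        (∀ ω, 0 ≤ p ω) → ∑ ω, p ω = 1 →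
        ∀ (D L : Type) (dec : D → ℕ∞) (C : Ω → Circuit ℕ∞ (Kx r Z × Kx r Z) D L)
          (out : ∀ ω, Kx r Z → Kx r Z → (C ω).Gate) (ε : ℝ),
          (∀ W : Kx r Z → Kx r Z → ℕ∞, (∀ u v, W u v = 1 ∨ W u v = ⊤) → (∀ u v, W u v = W v u) →
            (∀ u, W u u = ⊤) → ∑ ω with ¬ RightD (C ω) (out ω) dec W, p ω ≤ ε) →
          ∀ A : Set (Kx r Z → Kx r Z),
            (∀ x : Fin 3 → Fin r → ZMod 2, (∀ i, x i ∈ Γ) → swG x ∈ A) →
            (1 - 2 * ε) * (r : ℝ) ^ 3 ≤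
              ∑ ω, p ω * (numWirings encW (C ω) (pullW '' A) : ℝ) := by
  obtain ⟨κ, hκ, a, ha, -⟩ := exists_columns r hr
  refine ⟨code a, (card_code a).trans hκ, ?_⟩
  intro Z Ω _ _ p hp hp1 D L dec C out ε herr A hA
  let S : (Fin r × Fin r × Fin r) → Ω → Prop := fun T ω =>
    ∃ g, SeesT a (vfixer (actW_isAction (Z := Z) a) encW (C ω) g) T
  -- the probability that a triple is seen
  have hT : ∀ T, 1 - 2 * ε ≤ ∑ ω with S T ω, p ω := by
    intro T
    have h1 : ∑ t : Fin 2 → ZMod 2, ∑ ω with ¬ RightD (C ω) (out ω) dec (pth T t), p ω ≤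
        4 * ε := by
      refine (Finset.sum_le_sum fun t _ => herr (pth T t) (pth_one_or T t)
        (pth_symm T t) (pth_self T t)).trans ?_
      rw [Finset.sum_const, nsmul_eq_mul]
      have h3 : (univ : Finset (Fin 2 → ZMod 2)).card = 4 := by decide
      rw [h3]
      norm_num
    have h2 : ∑ t : Fin 2 → ZMod 2, ∑ ω with ¬ RightD (C ω) (out ω) dec (pth T t), p ω =
        ∑ ω, p ω * ((univ.filter fun t : Fin 2 → ZMod 2 =>
          ¬ RightD (C ω) (out ω) dec (pth T t)).card : ℝ) := by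
      simp only [Finset.sum_filter]
      rw [Finset.sum_comm]
      refine Finset.sum_congr rfl fun ω _ => ?_
      rw [← Finset.sum_filter, Finset.sum_const, nsmul_eq_mul, mul_comm]
    have h3 : 2 * ∑ ω with ¬ S T ω, p ω ≤ 4 * ε := by
      refine le_trans ?_ (h2 ▸ h1)
      rw [Finset.mul_sum, Finset.sum_filter]
      refine Finset.sum_le_sum fun ω _ => ?_
      by_cases h4 : S T ω
      · rw [if_neg (not_not.2 h4)]
        exact mul_nonneg (hp ω) (Nat.cast_nonneg _)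
      · rw [if_pos h4]
        obtain ⟨e, he⟩ := not_sees_errs_pth a T (C ω) (out ω) dec h4
        have h5 : 2 ≤ (univ.filter fun t : Fin 2 → ZMod 2 =>
            ¬ RightD (C ω) (out ω) dec (pth T t)).card := by
          refine half_wrong (e := e) fun t => ?_
          rw [mem_filter, mem_filter]
          rcases he t with h6 | h6
          · exact Or.inl ⟨mem_univ _, h6⟩
          · exact Or.inr ⟨mem_univ _, h6⟩
        have h6 : (2 : ℝ) ≤ ((univ.filter fun t : Fin 2 → ZMod 2 =>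
            ¬ RightD (C ω) (out ω) dec (pth T t)).card : ℝ) := by exact_mod_cast h5
        rw [mul_comm]
        exact mul_le_mul_of_nonneg_left h6 (hp ω)
    have h4 := Finset.sum_filter_add_sum_filter_not (univ : Finset Ω) (fun ω => S T ω) p
    rw [hp1] at h4
    linarith
  -- the expected number of triples seen
  have h1 : (1 - 2 * ε) * (r : ℝ) ^ 3 ≤ ∑ T : Fin r × Fin r × Fin r, ∑ ω with S T ω, p ω := by
    have h2 : ∑ _T : Fin r × Fin r × Fin r, (1 - 2 * ε) ≤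
        ∑ T : Fin r × Fin r × Fin r, ∑ ω with S T ω, p ω :=
      Finset.sum_le_sum fun T _ => hT T
    rw [Finset.sum_const, nsmul_eq_mul, Finset.card_univ, Fintype.card_prod, Fintype.card_prod,
      Fintype.card_fin] at h2
    push_cast at h2
    calc (1 - 2 * ε) * (r : ℝ) ^ 3 = (r : ℝ) * ((r : ℝ) * (r : ℝ)) * (1 - 2 * ε) := by ring
      _ ≤ _ := h2
  refine h1.trans ?_
  have h2 : ∑ T : Fin r × Fin r × Fin r, ∑ ω with S T ω, p ω =
      ∑ ω, p ω * ((univ.filter fun T : Fin r × Fin r × Fin r => S T ω).card : ℝ) := by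
    simp only [Finset.sum_filter]
    rw [Finset.sum_comm]
    refine Finset.sum_congr rfl fun ω _ => ?_
    rw [← Finset.sum_filter, Finset.sum_const, nsmul_eq_mul, mul_comm]
  rw [h2]
  refine Finset.sum_le_sum fun ω _ => mul_le_mul_of_nonneg_left ?_ (hp ω)
  have h3 := seen_le ha (actW_isAction (Z := Z) a) encW (C ω)
  have h4 : numWirings encW (C ω) (Set.range (actW (Z := Z) a)) ≤
      numWirings encW (C ω) (pullW '' A) := by
    refine numWiringsW_mono (C ω) ?_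
    rintro _ ⟨μ, rfl⟩
    refine ⟨_, hA (cmp (PP a μ)) ?_, rfl⟩
    intro i
    fin_cases i
    · exact enc_mem a μ.1
    · exact enc_mem a μ.2.1
    · exact enc_mem a μ.2.2
  exact_mod_cast h3.trans h4

end Pool.Agent.TH810.CW
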