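import Pool.Agent.H429R4.TR.TriMain

/-!
# Exact Triangle by randomized circuits with arbitrary gates
-/

namespace Pool.Agent.TH810.CW

open Finset
open Pool.Agent.H429R4.FW Pool.Agent.H429R4.TR
open Pool.Agent.H522R3.SW (Vec Pat PP PP_apply enc enc_mem code card_code exists_columns)

set_option linter.unusedSectionVars false

/-- An instance of Exact Triangle on the vertex set `V`: a matrix of pairs (edge flag, weight). -/
abbrev Inst (V : Type) : Type := V → V → Bool × ℤ

/-- The matrix is symmetric and loopless. -/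
def Valid {V : Type} (x : Inst V) : Prop := (∀ u v, x u v = x v u) ∧ ∀ u, (x u u).1 = false

/-- There is a triangle of weight zero. -/
def HasZero {V : Type} (x : Inst V) : Prop :=
  ∃ i j k, i ≠ j ∧ j ≠ k ∧ i ≠ k ∧ (x i j).1 = true ∧ (x j k).1 = true ∧ (x i k).1 = true ∧
    (x i j).2 + (x j k).2 + (x i k).2 = 0

/-- The matrix as the inputs of a circuit: a gate reads a pair (edge flag, weight). -/
def encX {V : Type} (x : Inst V) : V × V → Bool × ℤ := fun e => x e.1 e.2

/-- The transform of an instance under a map of the vertices. -/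
def pullX {V : Type} (f : V → V) (x : Inst V) : Inst V := fun u v => x (f u) (f v)

/-- The answer of the circuit, obtained by `dec` from the value of its output gate, is right for
the instance `x`. -/
def RightX {V D L : Type} (C : Circuit (Bool × ℤ) (V × V) D L) (dec : D → Prop) (x : Inst V) :
    Prop := dec (C.output (encX x)) ↔ HasZero x

variable {r : ℕ} {Z : Type}

section act

variable {κ : ℕ} (a : Fin r → Vec κ)

/-- the action -/
def actX (μ : Gp κ) (x : Inst (Kx r Z)) : Inst (Kx r Z) := pullX (swG (cmp (PP a μ))) x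

theorem actX_isAction : IsAction (actX (Z := Z) a) where
  zero x := by
    funext p q
    change x (swG (cmp (PP a 0)) p) (swG (cmp (PP a 0)) q) = x p q
    rw [map_zero, cmp_zero, swG_zero, swG_zero]
  add μ ν x := by
    funext p q
    change x (swG (cmp (PP a (μ + ν))) p) (swG (cmp (PP a (μ + ν))) q) =
      x (swG (cmp (PP a ν)) (swG (cmp (PP a μ)) p)) (swG (cmp (PP a ν)) (swG (cmp (PP a μ)) q))
    rw [swG_swG, swG_swG, map_add, cmp_add]

end act

theorem swG_inj (x : Fin 3 → Fin r → ZMod 2) {p q : Kx r Z} (h : swG x p = swG x q) : p = q := by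
  have h1 := congrArg (swG x) h
  rw [swG_swG, swG_swG] at h1
  have h2 : x + x = 0 := by
    funext i v
    exact CharTwo.add_self_eq_zero (x i v)
  rw [h2, swG_zero, swG_zero] at h1
  exact h1

open Classical in
/-- the hard instances: all pairs are edges, and the weights are `0` or `1` -/
noncomputable def ext3 (T : Fin r × Fin r × Fin r) (t : Fin 3 → ZMod 2) : Inst (Kx r Z) :=
  fun u v => if u = v then (false, 0) else (true, if (tri T t).Adj u v then 0 else 1)

theorem ext3_self (T : Fin r × Fin r × Fin r) (t : Fin 3 → ZMod 2) (u : Kx r Z) :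
    ext3 T t u u = (false, 0) := by
  unfold ext3
  rw [if_pos rfl]

open Classical in
theorem ext3_ne (T : Fin r × Fin r × Fin r) (t : Fin 3 → ZMod 2) {u v : Kx r Z} (h : u ≠ v) :
    ext3 T t u v = (true, if (tri T t).Adj u v then 0 else 1) := by
  unfold ext3
  rw [if_neg h]

theorem ext3_valid (T : Fin r × Fin r × Fin r) (t : Fin 3 → ZMod 2) :
    Valid (ext3 (Z := Z) T t) := by
  classical
  refine ⟨fun u v => ?_, fun u => by rw [ext3_self]⟩
  by_cases h : u = v
  · rw [h]
  · rw [ext3_ne T t h, ext3_ne T t (Ne.symm h)]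
    simp only [(tri (Z := Z) T t).adj_comm u v]

theorem ext3_weights (T : Fin r × Fin r × Fin r) (t : Fin 3 → ZMod 2) (u v : Kx r Z) (h : u ≠ v) :
    (ext3 T t u v).1 = true ∧ ((ext3 T t u v).2 = 0 ∨ (ext3 T t u v).2 = 1) := by
  classical
  rw [ext3_ne T t h]
  refine ⟨rfl, ?_⟩
  by_cases h1 : (tri T t).Adj u v
  · exact Or.inl (if_pos h1)
  · exact Or.inr (if_neg h1)

theorem hasZero_ext3 (T : Fin r × Fin r × Fin r) (t : Fin 3 → ZMod 2) :
    HasZero (ext3 (Z := Z) T t) ↔ t 0 + t 1 + t 2 = 0 := by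
  classical
  rw [← hasTriangle_tri (Z := Z) T t]
  constructor
  · rintro ⟨i, j, k, h1, h2, h3, -, -, -, h4⟩
    refine ⟨i, j, k, ?_⟩
    rw [ext3_ne T t h1, ext3_ne T t h2, ext3_ne T t h3] at h4
    simp only at h4
    by_cases c1 : (tri T t).Adj i j
    · by_cases c2 : (tri T t).Adj j k
      · by_cases c3 : (tri T t).Adj i k
        · exact ⟨c1, c2, c3⟩
        · rw [if_pos c1, if_pos c2, if_neg c3] at h4
          exact absurd h4 (by decide)
      · by_cases c3 : (tri T t).Adj i k
        · rw [if_pos c1, if_neg c2, if_pos c3] at h4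
          exact absurd h4 (by decide)
        · rw [if_pos c1, if_neg c2, if_neg c3] at h4
          exact absurd h4 (by decide)
    · by_cases c2 : (tri T t).Adj j k
      · by_cases c3 : (tri T t).Adj i k
        · rw [if_neg c1, if_pos c2, if_pos c3] at h4
          exact absurd h4 (by decide)
        · rw [if_neg c1, if_pos c2, if_neg c3] at h4
          exact absurd h4 (by decide)
      · by_cases c3 : (tri T t).Adj i k
        · rw [if_neg c1, if_neg c2, if_pos c3] at h4
          exact absurd h4 (by decide)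
        · rw [if_neg c1, if_neg c2, if_neg c3] at h4
          exact absurd h4 (by decide)
  · rintro ⟨i, j, k, h1, h2, h3⟩
    refine ⟨i, j, k, h1.ne, h2.ne, h3.ne, ?_⟩
    rw [ext3_ne T t h1.ne, ext3_ne T t h2.ne, ext3_ne T t h3.ne, if_pos h1, if_pos h2, if_pos h3]
    exact ⟨rfl, rfl, rfl, rfl⟩

section one

variable {κ : ℕ} (a : Fin r → Vec κ)

theorem actX_ext3 (T : Fin r × Fin r × Fin r) (μ : Gp κ) (t : Fin 3 → ZMod 2) :
    actX (Z := Z) a μ (ext3 T t) = ext3 T (t + BG a T μ) := by
  classical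
  funext p q
  change ext3 T t (swG (cmp (PP a μ)) p) (swG (cmp (PP a μ)) q) = _
  by_cases h : p = q
  · rw [h, ext3_self, ext3_self]
  · have h1 : swG (cmp (PP a μ)) p ≠ swG (cmp (PP a μ)) q := fun h2 => h (swG_inj _ h2)
    rw [ext3_ne T t h1, ext3_ne T _ h]
    have h2 : (tri T t).Adj (swG (cmp (PP a μ)) p) (swG (cmp (PP a μ)) q) ↔
        (tri T (t + BG a T μ)).Adj p q := by
      rw [← actG_tri (Z := Z) a T μ t]
      exact Iff.rfl
    simp only [h2]

theorem locX1 (T : Fin r × Fin r × Fin r) (β : Kx r Z × Kx r Z) (t e : Fin 3 → ZMod 2)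
    (h : ∀ s ∈ locG T β, e s = 0) : encX (ext3 T (t + e)) β = encX (ext3 T t) β := by
  classical
  have h1 := locG1 T β t e h
  unfold adjG at h1
  rw [decide_eq_decide] at h1
  change ext3 T (t + e) β.1 β.2 = ext3 T t β.1 β.2
  by_cases h2 : β.1 = β.2
  · rw [h2, ext3_self, ext3_self]
  · rw [ext3_ne T _ h2, ext3_ne T _ h2]
    simp only [h1]

theorem locX2 (T : Fin r × Fin r × Fin r) (β : Kx r Z × Kx r Z) (μ : Gp κ)
    (h : ∀ x, encX (actX (Z := Z) a μ x) β = encX x β) :
    ∀ s ∈ locG T β, BG a T μ s = 0 := by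
  classical
  intro s hs
  have h1 := h (fun p q => if (p, q) = β then (true, 0) else (false, 0))
  change (if (swG (cmp (PP a μ)) β.1, swG (cmp (PP a μ)) β.2) = β then ((true, 0) : Bool × ℤ)
    else (false, 0)) = (if (β.1, β.2) = β then ((true, 0) : Bool × ℤ) else (false, 0)) at h1
  have h2 : (swG (cmp (PP a μ)) β.1, swG (cmp (PP a μ)) β.2) = β := by
    by_contra hne
    rw [if_neg hne, if_pos rfl] at h1
    have h3 : false = true := congrArg Prod.fst h1
    exact Bool.false_ne_true h3
  rcases β with ⟨⟨i, v, c⟩ | z, ⟨j, v', c'⟩ | z'⟩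
  · obtain ⟨rfl, rfl, hs⟩ := hs
    have h3 : swG (cmp (PP a μ)) (.inl (i, mem3 T i, c) : Kx r Z) =
        .inl (i, mem3 T i, c + xi a T μ i) := rfl
    have h4 : swG (cmp (PP a μ)) (.inl (j, mem3 T j, c') : Kx r Z) =
        .inl (j, mem3 T j, c' + xi a T μ j) := rfl
    have h5 := congrArg Prod.fst h2
    have h6 := congrArg Prod.snd h2
    simp only at h5 h6
    rw [h3] at h5
    rw [h4] at h6
    simp only [Sum.inl.injEq, Prod.mk.injEq, true_and, add_eq_left] at h5 h6
    rw [BG_apply]
    rcases hs with ⟨hj, hs'⟩ | ⟨hi, hs'⟩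
    · rw [hs', ← hj, h5, h6, add_zero]
    · rw [hs', ← hi, h5, h6, add_zero]
  · exact hs.elim
  · exact hs.elim
  · exact hs.elim

/-- If no gate sees the triple, the circuit errs on half of the instances. -/
theorem not_sees_errs_ext3 (T : Fin r × Fin r × Fin r) {D L : Type}
    (C : Circuit (Bool × ℤ) (Kx r Z × Kx r Z) D L) (dec : D → Prop)
    (hno : ¬ ∃ g, SeesT a (vfixer (actX_isAction (Z := Z) a) encX C g) T) :
    ∃ e : Fin 3 → ZMod 2, ∀ t, ¬ RightX C dec (ext3 T t) ∨ ¬ RightX C dec (ext3 T (t + e)) := by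
  have hsum : ∀ μ, BG a T μ 0 + BG a T μ 1 + BG a T μ 2 = 0 := by
    intro μ
    simp only [BG_apply]
    have key : ∀ x y z : ZMod 2, x + y + (y + z) + (z + x) = 0 := by decide
    exact key _ _ _
  have hno' : ∀ g, NoTwo (BG a T) (vfixer (actX_isAction (Z := Z) a) encX C g) := by
    intro g s s' hs hs'
    by_contra hne
    apply hno
    refine ⟨g, fun μ hμ => ?_⟩
    have h0 := hs μ hμ
    have h1 := hs' μ hμ
    have h2 := hsum μ
    have key : ∀ (f : Fin 3 → ZMod 2) (s s' : Fin 3), s ≠ s' → f s = 0 → f s' = 0 →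
        f 0 + f 1 + f 2 = 0 → f 0 = 0 ∧ f 1 = 0 := by decide
    have h3 := key (BG a T μ) s s' hne h0 h1 h2
    exact ⟨h3.1, h3.2⟩
  have hF : NoTwo (BG a T) (fixer (actX_isAction (Z := Z) a) (value encX C C.out)) :=
    (hno' C.out).mono (vfixer_le _ encX C C.out)
  obtain ⟨s, hs⟩ : ∃ s, ¬ Dead (BG a T)
      (fixer (actX_isAction (Z := Z) a) (value encX C C.out)) s := by
    by_contra hcon
    push Not at hcon
    have := hF 0 1 (hcon 0) (hcon 1)
    exact absurd this (by decide)
  refine ⟨Pi.single s 1, fun t => ?_⟩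
  by_contra hcon
  rw [not_or, not_not, not_not] at hcon
  obtain ⟨h1, h2⟩ := hcon
  have h3 := value_shift' (actX_isAction (Z := Z) a) encX C (ext3 T)
    (fun μ t => actX_ext3 a T μ t) (locG T) (fun β t e h => locX1 T β t e h)
    (fun β μ h => locX2 a T β μ h) hno' C.out t (Pi.single s 1) (by
      intro s' hs'
      have hne : s' ≠ s := by
        rintro rfl
        exact hs hs'
      exact Pi.single_eq_of_ne hne _)
  unfold RightX at h1 h2
  rw [hasZero_ext3] at h1 h2
  have h4 : C.output (encX (ext3 (Z := Z) T (t + Pi.single s 1))) =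
      C.output (encX (ext3 T t)) := h3
  rw [h4, h1] at h2
  have key : ∀ (t : Fin 3 → ZMod 2) (s : Fin 3), ¬ (t 0 + t 1 + t 2 = 0 ↔
      (t + Pi.single s 1 : Fin 3 → ZMod 2) 0 + (t + Pi.single s 1 : Fin 3 → ZMod 2) 1 +
        (t + Pi.single s 1 : Fin 3 → ZMod 2) 2 = 0) := by decide
  exact key t s h2

end one

theorem numWiringsX_mono {V D L : Type} [Finite V] (C : Circuit (Bool × ℤ) (V × V) D L)
    {A' : Set (Inst V → Inst V)} {A : Set (V → V)} (h : A' ⊆ pullX '' A) :
    numWirings encX C A' ≤ numWirings encX C (pullX '' A) := by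
  have := C.finite
  have hfin : (wirings encX C (pullX '' A)).Finite := by
    have h1 : wirings encX C (pullX '' A) ⊆
        Set.range fun p : C.Gate × (V → V) => view encX C p.1 (pullX p.2) := by
      rintro _ ⟨g, _, ⟨f, _, rfl⟩, rfl⟩
      exact ⟨(g, f), rfl⟩
    exact (Set.finite_range _).subset h1
  refine Nat.card_mono hfin ?_
  rintro _ ⟨g, f, hf, rfl⟩
  exact ⟨g, f, h hf, rfl⟩

open Classical in
/-- **Randomized circuits for Exact Triangle.** -/
theorem exact_bound (r : ℕ) (hr : 1 ≤ r) :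
    ∃ Γ : AddSubgroup (Fin r → ZMod 2), Nat.card Γ ≤ 2 * r ∧
      ∀ (Z Ω : Type) [Fintype Z] [Fintype Ω] (p : Ω → ℝ),
        (∀ ω, 0 ≤ p ω) → ∑ ω, p ω = 1 →
        ∀ (D L : Type) (dec : D → Prop)
          (C : Ω → Circuit (Bool × ℤ) (Kx r Z × Kx r Z) D L) (ε : ℝ),
          (∀ x : Inst (Kx r Z), Valid x →
            (∀ u v, u ≠ v → (x u v).1 = true ∧ ((x u v).2 = 0 ∨ (x u v).2 = 1)) →
            ∑ ω with ¬ RightX (C ω) dec x, p ω ≤ ε) →
          ∀ A : Set (Kx r Z → Kx r Z),
            (∀ x : Fin 3 → Fin r → ZMod 2, (∀ i, x i ∈ Γ) → swG x ∈ A) →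
            (1 - 2 * ε) * (r : ℝ) ^ 3 ≤
              ∑ ω, p ω * (numWirings encX (C ω) (pullX '' A) : ℝ) := by
  obtain ⟨κ, hκ, a, ha, -⟩ := exists_columns r hr
  refine ⟨code a, (card_code a).trans hκ, ?_⟩
  intro Z Ω _ _ p hp hp1 D L dec C ε herr A hA
  let S : (Fin r × Fin r × Fin r) → Ω → Prop := fun T ω =>
    ∃ g, SeesT a (vfixer (actX_isAction (Z := Z) a) encX (C ω) g) T
  -- the probability that a triple is seen
  have hT : ∀ T, 1 - 2 * ε ≤ ∑ ω with S T ω, p ω := by
    intro T
    have h1 : ∑ t : Fin 3 → ZMod 2, ∑ ω with ¬ RightX (C ω) dec (ext3 T t), p ω ≤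
        8 * ε := by
      refine (Finset.sum_le_sum fun t _ => herr (ext3 T t) (ext3_valid T t)
        (ext3_weights T t)).trans ?_
      rw [Finset.sum_const, nsmul_eq_mul]
      have h3 : (univ : Finset (Fin 3 → ZMod 2)).card = 8 := by decide
      rw [h3]
      norm_num
    have h2 : ∑ t : Fin 3 → ZMod 2, ∑ ω with ¬ RightX (C ω) dec (ext3 T t), p ω =
        ∑ ω, p ω * ((univ.filter fun t : Fin 3 → ZMod 2 =>
          ¬ RightX (C ω) dec (ext3 T t)).card : ℝ) := by
      simp only [Finset.sum_filter]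
      rw [Finset.sum_comm]
      refine Finset.sum_congr rfl fun ω _ => ?_
      rw [← Finset.sum_filter, Finset.sum_const, nsmul_eq_mul, mul_comm]
    have h3 : 4 * ∑ ω with ¬ S T ω, p ω ≤ 8 * ε := by
      refine le_trans ?_ (h2 ▸ h1)
      rw [Finset.mul_sum, Finset.sum_filter]
      refine Finset.sum_le_sum fun ω _ => ?_
      by_cases h4 : S T ω
      · rw [if_neg (not_not.2 h4)]
        exact mul_nonneg (hp ω) (Nat.cast_nonneg _)
      · rw [if_pos h4]
        obtain ⟨e, he⟩ := not_sees_errs_ext3 a T (C ω) dec h4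
        have h5 : 4 ≤ (univ.filter fun t : Fin 3 → ZMod 2 =>
            ¬ RightX (C ω) dec (ext3 T t)).card := by
          refine half_wrong3 (e := e) fun t => ?_
          rw [mem_filter, mem_filter]
          rcases he t with h6 | h6
          · exact Or.inl ⟨mem_univ _, h6⟩
          · exact Or.inr ⟨mem_univ _, h6⟩
        have h6 : (4 : ℝ) ≤ ((univ.filter fun t : Fin 3 → ZMod 2 =>
            ¬ RightX (C ω) dec (ext3 T t)).card : ℝ) := by exact_mod_cast h5
        rw [mul_comm]
        exact mul_le_mul_of_nonneg_left h6 (hp ω)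
    have h4 := Finset.sum_filter_add_sum_filter_not (univ : Finset Ω) (fun ω => S T ω) p
    rw [hp1] at h4
    linarith
  -- the expected number of triples seen
  have h1 : (1 - 2 * ε) * (r : ℝ) ^ 3 ≤ ∑ T : Fin r × Fin r × Fin r, ∑ ω with S T ω, p ω := by
    have h2 : ∑ _T : Fin r × Fin r × Fin r, (1 - 2 * ε) ≤
        ∑ T : Fin r × Fin r × Fin r, ∑ ω with S T ω, p ω :=
      Finset.sum_le_sum fun T _ => hT T
    rw [Finset.sum_const, nsmul_eq_mul, Finset.card_univ, Fintype.card_prod, Fintype.card_prod,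
      Fintype.card_fin] at h2
    push_cast at h2
    calc (1 - 2 * ε) * (r : ℝ) ^ 3 = (r : ℝ) * ((r : ℝ) * (r : ℝ)) * (1 - 2 * ε) := by ring
      _ ≤ _ := h2
  refine h1.trans ?_
  have h2 : ∑ T : Fin r × Fin r × Fin r, ∑ ω with S T ω, p ω =
      ∑ ω, p ω * ((univ.filter fun T : Fin r × Fin r × Fin r => S T ω).card : ℝ) := by
    simp only [Finset.sum_filter]
    rw [Finset.sum_comm]
    refine Finset.sum_congr rfl fun ω _ => ?_
    rw [← Finset.sum_filter, Finset.sum_const, nsmul_eq_mul, mul_comm]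
  rw [h2]
  refine Finset.sum_le_sum fun ω _ => mul_le_mul_of_nonneg_left ?_ (hp ω)
  have h3 := seen_le ha (actX_isAction (Z := Z) a) encX (C ω)
  have h4 : numWirings encX (C ω) (Set.range (actX (Z := Z) a)) ≤
      numWirings encX (C ω) (pullX '' A) := by
    refine numWiringsX_mono (C ω) ?_
    rintro _ ⟨μ, rfl⟩
    refine ⟨_, hA (cmp (PP a μ)) ?_, rfl⟩
    intro i
    fin_cases i
    · exact enc_mem a μ.1
    · exact enc_mem a μ.2.1
    · exact enc_mem a μ.2.2
  exact_mod_cast h3.trans h4

/-! ### Brute force -/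

open Classical in
/-- Brute force as a circuit: one gate for every triple of vertices, and one OR gate. -/
noncomputable abbrev bruteX (V : Type) [Fintype V] :
    Circuit (Bool × ℤ) (V × V) (Bool × ℤ) Unit where
  Gate := TG V
  finite := inferInstance
  rank
    | .inl _ => 0
    | .inr (.inl _) => 1
    | .inr (.inr _) => 2
  read
    | .inl e => some e
    | .inr _ => none
  wires
    | .inl _ => 0
    | .inr (.inl (a, b, c)) => {((), .inl (a, b)), ((), .inl (b, c)), ((), .inl (a, c))}
    | .inr (.inr _) => (univ : Finset (V × V × V)).val.map fun t => ((), .inr (.inl t))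
  rank_lt := by
    rintro (v | ⟨a, b, c⟩ | u) e he
    · simp at he
    · simp only [Multiset.insert_eq_cons, Multiset.mem_cons, Multiset.mem_singleton] at he
      rcases he with rfl | rfl | rfl <;> simp
    · rw [Multiset.mem_map] at he
      obtain ⟨k, _, rfl⟩ := he
      simp
  fn
    | .inl _ => fun i _ => i.getD (false, 0)
    | .inr (.inl _) => fun _ m =>
        (decide ((∀ e ∈ m, e.2.1 = true) ∧ (m.map fun e => e.2.2).sum = 0), 0)
    | .inr (.inr _) => fun _ m => (decide (∃ e ∈ m, e.2.1 = true), 0)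
  out := .inr (.inr ())

section brute

variable {V : Type} [Fintype V]

theorem xvalue_inl (e : V × V) (x : Inst V) :
    value encX (bruteX V) (.inl e) x = encX x e := by
  refine (value_eq encX (bruteX V) (.inl e) x).trans ?_
  rfl

theorem xvalue_tri (a b c : V) (x : Inst V) :
    (value encX (bruteX V) (.inr (.inl (a, b, c))) x).1 = true ↔
      ((x a b).1 = true ∧ (x b c).1 = true ∧ (x a c).1 = true) ∧
        (x a b).2 + (x b c).2 + (x a c).2 = 0 := by
  classical
  have h0 := value_eq encX (bruteX V) (.inr (.inl (a, b, c))) x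
  have h : ((bruteX V).wires (.inr (.inl (a, b, c)))).map
      (fun e => (e.1, value encX (bruteX V) e.2 x)) =
      {((), encX x (a, b)), ((), encX x (b, c)), ((), encX x (a, c))} := by
    change (Multiset.map _ {((), (Sum.inl (a, b) : TG V)), ((), (Sum.inl (b, c) : TG V)),
      ((), (Sum.inl (a, c) : TG V))}) = _
    simp only [Multiset.insert_eq_cons, Multiset.map_cons, Multiset.map_singleton, xvalue_inl]
  rw [h] at h0
  rw [h0]
  change decide ((∀ e ∈ ({((), encX x (a, b)), ((), encX x (b, c)), ((), encX x (a, c))} :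
    Multiset (Unit × (Bool × ℤ))), e.2.1 = true) ∧ (Multiset.map (fun e => e.2.2)
      ({((), encX x (a, b)), ((), encX x (b, c)), ((), encX x (a, c))} :
    Multiset (Unit × (Bool × ℤ)))).sum = 0) = true ↔ _
  rw [decide_eq_true_iff]
  simp only [Multiset.insert_eq_cons, Multiset.mem_cons, Multiset.mem_singleton,
    forall_eq_or_imp, forall_eq, Multiset.map_cons, Multiset.map_singleton, Multiset.sum_cons,
    Multiset.sum_singleton, encX, add_assoc]

theorem xvalue_out (x : Inst V) :
    (value encX (bruteX V) (.inr (.inr ())) x).1 = true ↔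
      ∃ t : V × V × V, (value encX (bruteX V) (.inr (.inl t)) x).1 = true := by
  classical
  have h0 := value_eq encX (bruteX V) (.inr (.inr ())) x
  have h : ((bruteX V).wires (.inr (.inr ()))).map
      (fun e => (e.1, value encX (bruteX V) e.2 x)) =
      (univ : Finset (V × V × V)).val.map fun t =>
        ((), value encX (bruteX V) (.inr (.inl t)) x) := by
    change (Multiset.map _ ((univ : Finset (V × V × V)).val.map fun t =>
      ((), (Sum.inr (Sum.inl t) : TG V)))) = _
    rw [Multiset.map_map]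
    rfl
  rw [h] at h0
  rw [h0]
  change decide (∃ e ∈ ((univ : Finset (V × V × V)).val.map fun t =>
        ((), value encX (bruteX V) (.inr (.inl t)) x)), e.2.1 = true) = true ↔ _
  rw [decide_eq_true_iff]
  constructor
  · rintro ⟨e, he, h1⟩
    rw [Multiset.mem_map] at he
    obtain ⟨t, _, rfl⟩ := he
    exact ⟨t, h1⟩
  · rintro ⟨t, ht⟩
    exact ⟨_, Multiset.mem_map_of_mem _ (Finset.mem_univ_val t), ht⟩

theorem bruteX_right (x : Inst V) (hx : Valid x) :
    RightX (bruteX V) (fun d => d.1 = true) x := by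
  unfold RightX
  have h1 : (bruteX V).output (encX x) = value encX (bruteX V) (.inr (.inr ())) x := rfl
  rw [h1]
  change (value encX (bruteX V) (.inr (.inr ())) x).1 = true ↔ HasZero x
  rw [xvalue_out]
  constructor
  · rintro ⟨⟨a, b, c⟩, ht⟩
    obtain ⟨⟨h2, h3, h4⟩, h5⟩ := (xvalue_tri a b c x).1 ht
    have key : ∀ u v : V, (x u v).1 = true → u ≠ v := by
      rintro u _ h rfl
      rw [hx.2 u] at h
      exact Bool.false_ne_true h
    exact ⟨a, b, c, key a b h2, key b c h3, key a c h4, h2, h3, h4, h5⟩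
  · rintro ⟨a, b, c, -, -, -, h2, h3, h4, h5⟩
    exact ⟨(a, b, c), (xvalue_tri a b c x).2 ⟨⟨h2, h3, h4⟩, h5⟩⟩

theorem xvalue_map1 (π : Equiv.Perm V) (t : V × V × V) (x : Inst V) :
    (value encX (bruteX V) (.inr (.inl t)) (pullX π x)).1 =
      (value encX (bruteX V) (.inr (.inl (π t.1, π t.2.1, π t.2.2))) x).1 := by
  rw [Bool.eq_iff_iff]
  obtain ⟨a, b, c⟩ := t
  exact (xvalue_tri a b c _).trans (xvalue_tri (π a) (π b) (π c) x).symm

theorem xvalue_snd (t : V × V × V) (x : Inst V) :
    (value encX (bruteX V) (.inr (.inl t)) x).2 = 0 := by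
  rw [value_eq]

theorem xvalue_map (π : Equiv.Perm V) (t : V × V × V) (x : Inst V) :
    value encX (bruteX V) (.inr (.inl t)) (pullX π x) =
      value encX (bruteX V) (.inr (.inl (π t.1, π t.2.1, π t.2.2))) x :=
  Prod.ext (xvalue_map1 π t x) (by rw [xvalue_snd, xvalue_snd])

theorem bruteX_view (π : Equiv.Perm V) (g : TG V) :
    view encX (bruteX V) g (pullX π) = view encX (bruteX V) (bmap π g) id := by
  rcases g with e | ⟨a, b, c⟩ | u
  · unfold view
    exact Prod.ext rfl rfl
  · unfold view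
    refine Prod.ext rfl ?_
    change (Multiset.map _ {((), (Sum.inl (a, b) : TG V)), ((), (Sum.inl (b, c) : TG V)),
      ((), (Sum.inl (a, c) : TG V))}) = (Multiset.map _ {((), (Sum.inl (π a, π b) : TG V)),
      ((), (Sum.inl (π b, π c) : TG V)), ((), (Sum.inl (π a, π c) : TG V))})
    simp only [Multiset.insert_eq_cons, Multiset.map_cons, Multiset.map_singleton, xvalue_inl,
      id]
    rfl
  · unfold view
    refine Prod.ext rfl ?_
    change (Multiset.map _ ((univ : Finset (V × V × V)).val.map fun t =>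
      ((), (Sum.inr (Sum.inl t) : TG V)))) =
      (Multiset.map _ ((univ : Finset (V × V × V)).val.map fun t =>
      ((), (Sum.inr (Sum.inl t) : TG V))))
    conv_rhs => rw [← Multiset.map_univ_val_equiv (Equiv.prodCongr π (Equiv.prodCongr π π))]
    rw [Multiset.map_map, Multiset.map_map, Multiset.map_map]
    refine Multiset.map_congr rfl fun t _ => ?_
    simp only [Function.comp_apply, xvalue_map, id]
    rfl

theorem bruteX_wirings :
    numWirings encX (bruteX V) (pullX '' {f | ∃ π : Equiv.Perm V, f = π}) ≤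
      Fintype.card V ^ 3 + Fintype.card V ^ 2 + 1 := by
  have h1 : wirings encX (bruteX V) (pullX '' {f | ∃ π : Equiv.Perm V, f = π}) ⊆
      Set.range fun g : TG V => view encX (bruteX V) g id := by
    rintro _ ⟨g, _, ⟨_, ⟨π, rfl⟩, rfl⟩, rfl⟩
    exact ⟨bmap π g, (bruteX_view π g).symm⟩
  unfold numWirings
  refine (Nat.card_mono (Set.finite_range _) h1).trans ?_
  refine (Finite.card_range_le _).trans ?_
  rw [Nat.card_eq_fintype_card]
  simp only [Fintype.card_sum, Fintype.card_prod, Fintype.card_unit]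
  exact le_of_eq (by ring)

end brute

end Pool.Agent.TH810.CW
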