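import Pool.Agent.TH810.CW.HaltEmb
import Pool.Agent.H550R2.TM.Num

set_option autoImplicit false
set_option linter.unusedSectionVars false

/-!
# Circuits with few wirings for short computations: the circuit for graphs
-/

namespace Pool.Agent.TH810.CW.Halting

open Pool.Agent.H550R2.Lin Pool.Agent.H550R2.Halt
open Pool.Agent.H429R4.Sem (Circuit)
open Pool.Agent.H429R4.GC (value view wirings numWirings adj relabelings)

/-- The renamings of machines: the states other than `q₀`, `q₁` are permuted, and so are the symbols
other than the blank. -/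
def renamings {Q Γ : Type} (q₀ q₁ : Q) (bl : Γ) : Set (Set (Tr Q Γ) → Set (Tr Q Γ)) :=
  {F | ∃ (σ : Equiv.Perm Q) (τ : Equiv.Perm Γ), σ q₀ = q₀ ∧ σ q₁ = q₁ ∧ τ bl = bl ∧ F = renM σ τ}

section pull

variable {k b : ℕ} {Q Γ : Type} (e : SQ k b ↪ Q) (f : SG k b ↪ Γ) {D L : Type}

/-- the circuit for graphs -/
noncomputable def pull (C : Circuit (Tr Q Γ) D L) : Circuit (Wt b × Wt b) D L where
  Gate := C.Gate
  finite := C.finite
  rank := C.rank
  read g := (C.read g).bind (rd e f)
  wires := C.wires
  rank_lt := C.rank_lt
  fn g o m := C.fn g ((C.read g).map fun z => o.getD (st e f z)) m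
  out := C.out

theorem pull_eval (C : Circuit (Tr Q Γ) D L) (G : SimpleGraph (Wt b)) (g : C.Gate) :
    (pull e f C).eval (adj G) g = C.eval (table (inst e f G)) g := by
  induction hr : C.rank g using Nat.strong_induction_on generalizing g with
  | _ r ih =>
    have h1 : (pull e f C).fn g (((pull e f C).read g).map (adj G)) =
        C.fn g ((C.read g).map (table (inst e f G))) := by
      funext m
      show C.fn g ((C.read g).map fun z =>
        ((((C.read g).bind (rd e f)).map (adj G)).getD (st e f z))) m = _
      congr 1
      cases hz : C.read g with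
      | none => rfl
      | some z =>
        show some (((rd e f z).map (adj G)).getD (st e f z)) = some (table (inst e f G) z)
        rw [table_inst]
    refine (Circuit.eval.eq_1 (pull e f C) (adj G) g).trans
      (Eq.trans ?_ (Circuit.eval.eq_1 C (table (inst e f G)) g).symm)
    refine (congrFun h1 _).trans (congrArg (C.fn g _) ?_)
    refine Multiset.map_congr rfl fun w _ => ?_
    exact Prod.ext rfl (ih (C.rank w.1.2) (hr ▸ C.rank_lt g w.1 w.2) w.1.2 rfl)

open Classical in
/-- the restriction of a bit of the machine to the machines of graphs -/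
noncomputable def restr (χ : Set (Tr Q Γ) → Bool) : Option (SimpleGraph (Wt b) → Bool) :=
  if ∃ c, ∀ G, χ (inst e f G) = c then none else some fun G => χ (inst e f G)

/-- the restriction of a wiring to the machines of graphs -/
noncomputable def Phi
    (w : Option (Set (Tr Q Γ) → Bool) × Multiset (L × (Set (Tr Q Γ) → D))) :
    Option (SimpleGraph (Wt b) → Bool) × Multiset (L × (SimpleGraph (Wt b) → D)) :=
  (w.1.bind (restr e f), w.2.map fun l => (l.1, fun G => l.2 (inst e f G)))

theorem view_pull (C : Circuit (Tr Q Γ) D L) (g : C.Gate) (π : Equiv.Perm (Wt b)) :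
    view adj (pull e f C) g (fun G => G.comap π) =
      Phi e f (view table C g
        (renM ((qW k π).viaEmbedding e) ((gW k π).viaEmbedding f))) := by
  classical
  refine Prod.ext ?_ ?_
  · show ((C.read g).bind (rd e f)).map (fun c (G : SimpleGraph (Wt b)) => adj (G.comap π) c) =
      ((C.read g).map fun z M => table
        (renM ((qW k π).viaEmbedding e) ((gW k π).viaEmbedding f) M) z).bind (restr e f)
    cases C.read g with
    | none => rfl
    | some z =>
      show (rd e f z).map (fun c (G : SimpleGraph (Wt b)) => adj (G.comap π) c) =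
        restr e f (fun M => table
          (renM ((qW k π).viaEmbedding e) ((gW k π).viaEmbedding f) M) z)
      have hz : ∀ G, table (renM ((qW k π).viaEmbedding e) ((gW k π).viaEmbedding f)
          (inst e f G)) z = ((rd e f z).map (adj (G.comap π))).getD (st e f z) := fun G => by
        rw [← inst_comap, table_inst]
      cases h : rd e f z with
      | none =>
        unfold restr
        rw [if_pos ⟨st e f z, fun G => (hz G).trans (by rw [h]; rfl)⟩]
        rfl
      | some q =>
        unfold restr
        rw [if_neg]
        · show some _ = some _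
          congr 1
          funext G
          refine Eq.trans ?_ (hz G).symm
          rw [h]
          rfl
        · rintro ⟨c, hc⟩
          have h1 := (hz ⊥).symm.trans (hc ⊥)
          have h2 := (hz ⊤).symm.trans (hc ⊤)
          rw [h] at h1 h2
          have h3 : adj ((⊥ : SimpleGraph (Wt b)).comap π) q =
            adj ((⊤ : SimpleGraph (Wt b)).comap π) q := h1.trans h2.symm
          unfold adj at h3
          rw [decide_eq_decide] at h3
          have h4 : ((⊤ : SimpleGraph (Wt b)).comap π).Adj q.1 q.2 := by
            show π q.1 ≠ π q.2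
            exact fun h5 => rd_ne e f h (π.injective h5)
          exact h3.2 h4
  · show (C.wires g).map (fun w => (w.1, fun G : SimpleGraph (Wt b) =>
        value adj (pull e f C) w.2 (G.comap π))) =
      ((C.wires g).map fun w => (w.1, fun M => value table C w.2
        (renM ((qW k π).viaEmbedding e) ((gW k π).viaEmbedding f) M))).map
          (fun l => (l.1, fun G => l.2 (inst e f G)))
    rw [Multiset.map_map]
    refine Multiset.map_congr rfl fun w _ => ?_
    refine Prod.ext rfl ?_
    funext G
    show (pull e f C).eval (adj (G.comap π)) w.2 = C.eval (table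
      (renM ((qW k π).viaEmbedding e) ((gW k π).viaEmbedding f) (inst e f G))) w.2
    rw [pull_eval, inst_comap]

theorem wirings_finite [Finite Q] [Finite Γ] (C : Circuit (Tr Q Γ) D L)
    (A : Set (Set (Tr Q Γ) → Set (Tr Q Γ))) : (wirings table C A).Finite := by
  have := C.finite
  have h : wirings table C A = Set.image2 (fun g F => view table C g F) Set.univ A := by
    ext w
    constructor
    · rintro ⟨g, F, hF, rfl⟩
      exact ⟨g, Set.mem_univ g, F, hF, rfl⟩
    · rintro ⟨g, _, F, hF, rfl⟩
      exact ⟨g, F, hF, rfl⟩
  rw [h]
  exact (Set.toFinite _).image2 _ (Set.toFinite _)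

theorem numWirings_pull [Finite Q] [Finite Γ] (C : Circuit (Tr Q Γ) D L) :
    numWirings adj (pull e f C) (relabelings (Wt b)) ≤
      numWirings table C
        (renamings (e (0, 0, 0, none)) (e (1, Fin.last k, Fin.last k, none)) (f none)) := by
  unfold numWirings
  have hfin := wirings_finite C
    (renamings (e (0, 0, 0, none)) (e (1, Fin.last k, Fin.last k, none)) (f none))
  refine le_trans (Nat.card_mono (hfin.image (Phi e f)) ?_) (Nat.card_image_le hfin)
  rintro _ ⟨g, _, ⟨π, rfl⟩, rfl⟩
  refine ⟨_, ⟨g, _, ⟨(qW k π).viaEmbedding e, (gW k π).viaEmbedding f, ?_, ?_, ?_, rfl⟩, rfl⟩,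
    (view_pull e f C g π).symm⟩
  · rw [Equiv.Perm.viaEmbedding_apply]
    rfl
  · rw [Equiv.Perm.viaEmbedding_apply]
    rfl
  · rw [Equiv.Perm.viaEmbedding_apply]
    rfl

end pull

end Pool.Agent.TH810.CW.Halting
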