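import Pool.Agent.H429R4.GC.Main
import Pool.Agent.H550R2.TM.Low

set_option autoImplicit false
set_option linter.unusedSectionVars false

/-!
# Circuits with few wirings for short computations: machines of graphs
-/

namespace Pool.Agent.TH810.CW.Halting

open Pool.Agent.H550R2.Lin Pool.Agent.H550R2.Halt
open Pool.Agent.H429R4.Sem (Circuit)
open Pool.Agent.H429R4.GC (value view wirings numWirings adj relabelings)

variable {k b : ℕ}

/-- the vertices of the graph -/
abbrev Wt (b : ℕ) : Type := Fin b → ZMod 2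

/-- the `k`-partite graph -/
def GP (k : ℕ) (G : SimpleGraph (Wt b)) : SimpleGraph (Ver k b) where
  Adj u w := u.1 ≠ w.1 ∧ G.Adj u.2 w.2
  symm := ⟨fun _ _ h => ⟨h.1.symm, h.2.symm⟩⟩
  loopless := ⟨fun _ h => h.1 rfl⟩

theorem GP_partite (G : SimpleGraph (Wt b)) : Partite (GP k G) := fun _ _ h => h.1

theorem hasClq_GP (G : SimpleGraph (Wt b)) : HasClq (GP k G) ↔ ¬ G.CliqueFree k := by
  classical
  constructor
  · rintro ⟨S, hS⟩ hf
    have hc := hS.isClique
    have hinj : Set.InjOn (Prod.snd : Ver k b → Wt b) S := by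
      intro u hu w hw h
      by_contra hne
      have h2 := (hc hu hw hne).2
      rw [h] at h2
      exact G.loopless.irrefl _ h2
    refine hf (S.image Prod.snd) ⟨?_, ?_⟩
    · rw [Finset.coe_image]
      rintro _ ⟨u, hu, rfl⟩ _ ⟨w, hw, rfl⟩ hne
      exact (hc hu hw fun h => hne (by rw [h])).2
    · rw [Finset.card_image_of_injOn hinj, hS.card_eq]
  · intro h
    unfold SimpleGraph.CliqueFree at h
    push Not at h
    obtain ⟨T, hT⟩ := h
    let e : T ≃ Fin k := T.equivFinOfCardEq hT.card_eq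
    refine ⟨Finset.univ.image fun i : Fin k => ((i, (e.symm i).1) : Ver k b), ?_, ?_⟩
    · rw [Finset.coe_image]
      rintro _ ⟨i, _, rfl⟩ _ ⟨j, _, rfl⟩ hne
      have hij : i ≠ j := fun h => hne (by rw [h])
      refine ⟨hij, hT.isClique (e.symm i).2 (e.symm j).2 fun h => hij ?_⟩
      exact e.symm.injective (Subtype.ext h)
    · rw [Finset.card_image_of_injective _ fun i j h => congrArg Prod.fst h, Finset.card_univ,
        Fintype.card_fin]

/-- the action on the vertices of the `k`-partite graph -/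
def pW (k : ℕ) (π : Equiv.Perm (Wt b)) : Equiv.Perm (Ver k b) := (Equiv.refl _).prodCongr π

/-- the action on the states -/
def qW (k : ℕ) (π : Equiv.Perm (Wt b)) : Equiv.Perm (SQ k b) :=
  (Equiv.refl _).prodCongr ((Equiv.refl _).prodCongr ((Equiv.refl _).prodCongr
    (Equiv.optionCongr (pW k π))))

/-- the action on the symbols -/
def gW (k : ℕ) (π : Equiv.Perm (Wt b)) : Equiv.Perm (SG k b) := Equiv.optionCongr (pW k π)

theorem St_renW (π : Equiv.Perm (Wt b)) {z : Tr (SQ k b) (SG k b)} (h : z ∈ St k b) :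
    ren (qW k π) (gW k π) z ∈ St k b := by
  rcases h with ⟨j, v, rfl⟩ | rfl | ⟨i, j, a, rfl⟩ | ⟨i, a, rfl⟩ | ⟨i, j, w, hij, rfl⟩ |
    ⟨i, w, rfl⟩ | ⟨i, w, rfl⟩
  · left
    exact ⟨j, π v, rfl⟩
  · right; left
    rfl
  · right; right; left
    exact ⟨i, j, gW k π a, rfl⟩
  · right; right; right; left
    exact ⟨i, gW k π a, rfl⟩
  · right; right; right; right; left
    exact ⟨i, j, pW k π w, hij, rfl⟩
  · right; right; right; right; right; left
    exact ⟨i, pW k π w, rfl⟩
  · right; right; right; right; right; right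
    exact ⟨i, pW k π w, rfl⟩

theorem Ts_renW (π : Equiv.Perm (Wt b)) {z : Tr (SQ k b) (SG k b)} {p : Ver k b × Ver k b}
    (h : Ts z p) : Ts (ren (qW k π) (gW k π) z) (pW k π p.1, pW k π p.2) := by
  obtain ⟨i, j, hij, rfl⟩ := h
  exact ⟨i, j, hij, rfl⟩

theorem MG_renW (π : Equiv.Perm (Wt b)) {G H : SimpleGraph (Wt b)}
    (h : ∀ u w, H.Adj u w → G.Adj (π u) (π w)) {z : Tr (SQ k b) (SG k b)}
    (hz : z ∈ MG (GP k H)) : ren (qW k π) (gW k π) z ∈ MG (GP k G) := by
  rcases hz with hz | ⟨p, hp, hz⟩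
  · exact Or.inl (St_renW π hz)
  · exact Or.inr ⟨(pW k π p.1, pW k π p.2), ⟨hp.1, h _ _ hp.2⟩, Ts_renW π hz⟩

theorem ren_renW (π : Equiv.Perm (Wt b)) (z : Tr (SQ k b) (SG k b)) :
    ren (qW k π) (gW k π) (ren (qW k π.symm) (gW k π.symm) z) = z := by
  have h1 : ∀ a : SG k b, gW k π (gW k π.symm a) = a := by
    rintro (_ | ⟨i, x⟩)
    · rfl
    · show some ((i, π (π.symm x)) : Ver k b) = some (i, x)
      rw [Equiv.apply_symm_apply]
  have h2 : ∀ q : SQ k b, qW k π (qW k π.symm q) = q := by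
    rintro ⟨p, i, j, c⟩
    show (p, i, j, gW k π (gW k π.symm c)) = (p, i, j, c)
    rw [h1]
  obtain ⟨q, a, q', a', m⟩ := z
  show (qW k π (qW k π.symm q), gW k π (gW k π.symm a), qW k π (qW k π.symm q'),
    gW k π (gW k π.symm a'), m) = _
  rw [h1, h1, h2, h2]

variable {Q Γ : Type} (e : SQ k b ↪ Q) (f : SG k b ↪ Γ)

theorem ren_embW (π : Equiv.Perm (Wt b)) (z : Tr (SQ k b) (SG k b)) :
    ren ((qW k π).viaEmbedding e) ((gW k π).viaEmbedding f) (embT e f z) =
      embT e f (ren (qW k π) (gW k π) z) := by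
  obtain ⟨q, a, q', a', m⟩ := z
  show ((qW k π).viaEmbedding e (e q), (gW k π).viaEmbedding f (f a),
    (qW k π).viaEmbedding e (e q'), (gW k π).viaEmbedding f (f a'), m) =
    (e (qW k π q), f (gW k π a), e (qW k π q'), f (gW k π a'), m)
  rw [Equiv.Perm.viaEmbedding_apply, Equiv.Perm.viaEmbedding_apply,
    Equiv.Perm.viaEmbedding_apply, Equiv.Perm.viaEmbedding_apply]

/-- the machine of a graph -/
def inst (G : SimpleGraph (Wt b)) : Set (Tr Q Γ) := embT e f '' MG (GP k G)

/-- the renaming of machines -/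
def renM (σ : Equiv.Perm Q) (τ : Equiv.Perm Γ) (M : Set (Tr Q Γ)) : Set (Tr Q Γ) :=
  {z | ren σ τ z ∈ M}

theorem inst_comap (π : Equiv.Perm (Wt b)) (G : SimpleGraph (Wt b)) :
    inst e f (G.comap π) =
      renM ((qW k π).viaEmbedding e) ((gW k π).viaEmbedding f) (inst e f G) := by
  ext z
  constructor
  · rintro ⟨z', hz, rfl⟩
    show ren ((qW k π).viaEmbedding e) ((gW k π).viaEmbedding f) (embT e f z') ∈ inst e f G
    rw [ren_embW]
    exact ⟨_, MG_renW π (fun u w h => h) hz, rfl⟩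
  · rintro ⟨z', hz, h⟩
    refine ⟨ren (qW k π.symm) (gW k π.symm) z', MG_renW π.symm (fun u w h => ?_) hz, ?_⟩
    · show G.Adj (π (π.symm u)) (π (π.symm w))
      rw [Equiv.apply_symm_apply, Equiv.apply_symm_apply]
      exact h
    · apply (ren ((qW k π).viaEmbedding e) ((gW k π).viaEmbedding f)).injective
      rw [ren_embW, ren_renW]
      exact h

theorem halts_inst (G : SimpleGraph (Wt b)) {K : ℕ} (hK : 2 * k ^ 2 + 3 * k + 1 ≤ K) :
    Halts (inst e f G) (e (0, 0, 0, none)) (e (1, Fin.last k, Fin.last k, none)) (f none) K ↔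
      ¬ G.CliqueFree k := by
  unfold inst
  rw [halts_emb, halts_MG _ (GP_partite G) hK, hasClq_GP]

open Classical in
/-- the table of a machine, as input bits -/
noncomputable def table {Q Γ : Type} (M : Set (Tr Q Γ)) : Tr Q Γ → Bool := fun z => decide (z ∈ M)

/-- the transition tests a pair of vertices -/
def Tst (z : Tr Q Γ) (q : Wt b × Wt b) : Prop :=
  ∃ p : Ver k b × Ver k b, p.1.1 ≠ p.2.1 ∧ (p.1.2, p.2.2) = q ∧ q.1 ≠ q.2 ∧
    ∃ z', Ts z' p ∧ embT e f z' = z

open Classical in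
/-- the entry of the adjacency matrix which the transition tests -/
noncomputable def rd (z : Tr Q Γ) : Option (Wt b × Wt b) :=
  if h : ∃ q, Tst e f z q then some h.choose else none

open Classical in
/-- the bit of the transitions which do not depend on the graph -/
noncomputable def st (z : Tr Q Γ) : Bool := decide (z ∈ embT e f '' St k b)

theorem Tst.mem {z : Tr Q Γ} {q : Wt b × Wt b} (h : Tst e f z q) (G : SimpleGraph (Wt b)) :
    z ∈ inst e f G ↔ G.Adj q.1 q.2 := by
  obtain ⟨p, hp, rfl, hne, z', hT, rfl⟩ := h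
  constructor
  · rintro ⟨z'', h1, h2⟩
    rw [embT_inj e f h2] at h1
    rcases h1 with h1 | ⟨p', hp', hT'⟩
    · exact absurd h1 (not_St hT)
    · rw [Ts_unique hT' hT] at hp'
      exact hp'.2
  · intro h
    exact ⟨z', Or.inr ⟨p, ⟨hp, h⟩, hT⟩, rfl⟩

theorem mem_inst_of_not {z : Tr Q Γ} (h : ¬ ∃ q, Tst e f z q) (G : SimpleGraph (Wt b)) :
    z ∈ inst e f G ↔ z ∈ embT e f '' St k b := by
  constructor
  · rintro ⟨z', h1, rfl⟩
    rcases h1 with h1 | ⟨p, hp, hT⟩
    · exact ⟨z', h1, rfl⟩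
    · exact absurd ⟨_, p, hp.1, rfl, fun h2 => G.loopless.irrefl _ (h2 ▸ hp.2), z', hT, rfl⟩ h
  · rintro ⟨z', h1, rfl⟩
    exact ⟨z', Or.inl h1, rfl⟩

/-- The bits of the machine of a graph. -/
theorem table_inst (G : SimpleGraph (Wt b)) (z : Tr Q Γ) :
    table (inst e f G) z = ((rd e f z).map (adj G)).getD (st e f z) := by
  classical
  by_cases h : ∃ q, Tst e f z q
  · unfold rd
    rw [dif_pos h]
    show decide _ = decide _
    exact decide_eq_decide.2 (h.choose_spec.mem e f G)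
  · unfold rd
    rw [dif_neg h]
    show decide _ = decide _
    exact decide_eq_decide.2 (mem_inst_of_not e f h G)

theorem rd_ne {z : Tr Q Γ} {q : Wt b × Wt b} (h : rd e f z = some q) : q.1 ≠ q.2 := by
  classical
  unfold rd at h
  split_ifs at h with h1
  rw [← Option.some.inj h]
  obtain ⟨p, _, _, h2, _⟩ := h1.choose_spec
  exact h2

end Pool.Agent.TH810.CW.Halting
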