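import Pool.Agent.TH810.CW.Halt

set_option autoImplicit false
set_option linter.unusedSectionVars false

/-!
# Circuits with few wirings for short computations: the numbers, and symmetric circuits
-/

namespace Pool.Agent.TH810.CW.Halting

open Pool.Agent.H550R2.Lin Pool.Agent.H550R2.Halt
open Pool.Agent.H429R4.Sem (Circuit)
open Pool.Agent.H429R4.GC (value view wirings numWirings)

/-- The machines of graphs, in terms of the numbers of states and symbols and of the number of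
steps. -/
theorem params (c K n : ℕ) (hK : 4 * (c + 2) ^ 2 ≤ K) (hn : 4 * (c + 2) ^ 2 * K ^ 2 ≤ n)
    {Q Γ : Type} [Fintype Q] [Fintype Γ] {q₀ q₁ : Q} (bl : Γ) (hq : q₀ ≠ q₁)
    (hQ : n ≤ Fintype.card Q) (hΓ : n ≤ Fintype.card Γ) :
    ∃ (b : ℕ) (e : SQ (Nat.sqrt K / 2) b ↪ Q) (f : SG (Nat.sqrt K / 2) b ↪ Γ),
      c ≤ Nat.sqrt K / 2 ∧ c * (Nat.sqrt K / 2) ≤ 2 ^ b ∧
      2 * (Nat.sqrt K / 2) ^ 2 + 3 * (Nat.sqrt K / 2) + 1 ≤ K ∧
      e (0, 0, 0, none) = q₀ ∧ e (1, Fin.last _, Fin.last _, none) = q₁ ∧ f none = bl ∧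
      (n : ℝ) / (3 * K ^ 2) ≤ 2 ^ b / ((Nat.sqrt K / 2 : ℕ) : ℝ) := by
  classical
  obtain ⟨k, hk⟩ : ∃ k, k = Nat.sqrt K / 2 := ⟨_, rfl⟩
  have hck : c + 2 ≤ k := by
    have h1 : 2 * (c + 2) ≤ Nat.sqrt K := by
      rw [Nat.le_sqrt]
      nlinarith
    omega
  have hkK : 4 * k ^ 2 ≤ K := by
    have h1 : 2 * k ≤ Nat.sqrt K := by omega
    have h2 : Nat.sqrt K ^ 2 ≤ K := Nat.sqrt_le' K
    nlinarith [Nat.pow_le_pow_left h1 2]
  have hk2 : 2 ≤ k := by omega
  have hK1 : 2 * k ^ 2 + 3 * k + 1 ≤ K := by nlinarith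
  have hkK4 : 16 * k ^ 4 ≤ K ^ 2 := by
    have := Nat.pow_le_pow_left hkK 2
    nlinarith
  have hk3 : k ^ 3 ≤ k ^ 4 := Nat.pow_le_pow_right (by omega) (by norm_num)
  have hk3pos : 0 < k ^ 3 := by positivity
  have hcc : 16 ≤ 4 * (c + 2) ^ 2 := by nlinarith
  have hn1 : 24 * k ^ 3 ≤ n := by
    have h1 : 16 * K ^ 2 ≤ n := le_trans (Nat.mul_le_mul_right _ hcc) hn
    nlinarith
  have hpos : n / (24 * k ^ 3) ≠ 0 := by
    rw [Nat.div_ne_zero_iff]
    exact ⟨by positivity, hn1⟩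
  obtain ⟨b, hb⟩ : ∃ b, b = Nat.log 2 (n / (24 * k ^ 3)) := ⟨_, rfl⟩
  have hb1 : 24 * k ^ 3 * 2 ^ b ≤ n := by
    have h1 : 2 ^ b ≤ n / (24 * k ^ 3) := by
      rw [hb]
      exact Nat.pow_log_le_self 2 hpos
    rw [Nat.le_div_iff_mul_le (by positivity)] at h1
    linarith
  have hb2 : n < 48 * k ^ 3 * 2 ^ b := by
    have h1 : n / (24 * k ^ 3) < 2 ^ (b + 1) := by
      rw [hb]
      exact Nat.lt_pow_succ_log_self (by norm_num) _
    rw [Nat.div_lt_iff_lt_mul (by positivity), pow_succ] at h1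
    linarith
  have hb0 : 0 < 2 ^ b := by positivity
  have hkb : 0 < k * 2 ^ b := by positivity
  have hSQ : Fintype.card (SQ k b) ≤ Fintype.card Q := by
    refine le_trans ?_ hQ
    rw [card_SQ]
    refine le_trans ?_ hb1
    have e1 : k * 2 ^ b + 1 ≤ 2 * (k * 2 ^ b) := by omega
    have e2 : k + 1 ≤ 2 * k := by omega
    calc 3 * ((k + 1) * ((k + 1) * (k * 2 ^ b + 1)))
        ≤ 3 * ((2 * k) * ((2 * k) * (2 * (k * 2 ^ b)))) := by gcongr
      _ = 24 * k ^ 3 * 2 ^ b := by ring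
  have hSG : Fintype.card (SG k b) ≤ Fintype.card Γ := by
    refine le_trans ?_ hΓ
    rw [card_SG]
    refine le_trans ?_ hb1
    have e1 : k * 2 ^ b + 1 ≤ 2 * (k * 2 ^ b) := by omega
    have e3 : k ≤ k ^ 3 := Nat.le_self_pow (by norm_num) k
    calc k * 2 ^ b + 1 ≤ 2 * (k * 2 ^ b) := e1
      _ ≤ 24 * (k ^ 3 * 2 ^ b) := by gcongr; norm_num
      _ = 24 * k ^ 3 * 2 ^ b := by ring
  obtain ⟨e, he0, he1⟩ := exists_emb hSQ (a₀ := ((0, 0, 0, none) : SQ k b))
    (a₁ := (1, Fin.last k, Fin.last k, none)) (fun h => phase_ne h (by decide)) hq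
  obtain ⟨f, hf⟩ := exists_emb' hSG (none : SG k b) bl
  have hcb : c * k ≤ 2 ^ b := by
    have h1 : 4 * (c + 2) ^ 2 * (16 * k ^ 4) ≤ 48 * k ^ 3 * 2 ^ b :=
      le_trans (Nat.mul_le_mul_left _ hkK4) (hn.trans hb2.le)
    have h2 : 48 * k ^ 3 * (c * k) ≤ 48 * k ^ 3 * 2 ^ b := by
      refine le_trans ?_ h1
      have h3 : 48 * c ≤ 64 * (c + 2) ^ 2 := by nlinarith
      calc 48 * k ^ 3 * (c * k) = 48 * c * k ^ 4 := by ring
        _ ≤ 64 * (c + 2) ^ 2 * k ^ 4 := Nat.mul_le_mul_right _ h3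
        _ = 4 * (c + 2) ^ 2 * (16 * k ^ 4) := by ring
    exact Nat.le_of_mul_le_mul_left h2 (by positivity)
  rw [← hk]
  refine ⟨b, e, f, by omega, hcb, hK1, he0, he1, hf, ?_⟩
  have hkpos : (0 : ℝ) < k := by exact_mod_cast (by omega : 0 < k)
  have hKpos : (0 : ℝ) < K := by
    exact_mod_cast (by nlinarith : 0 < K)
  rw [div_le_div_iff₀ (by positivity) hkpos]
  have h1 : (n : ℝ) ≤ 48 * k ^ 3 * 2 ^ b := by exact_mod_cast hb2.le
  have h2 : (16 : ℝ) * k ^ 4 ≤ K ^ 2 := by exact_mod_cast hkK4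
  have h3 : (0 : ℝ) < 2 ^ b := by positivity
  calc (n : ℝ) * k ≤ 48 * k ^ 3 * 2 ^ b * k := mul_le_mul_of_nonneg_right h1 hkpos.le
    _ = 2 ^ b * (3 * (16 * k ^ 4)) := by ring
    _ ≤ 2 ^ b * (3 * K ^ 2) := by gcongr

section sym

variable {Q Γ D L : Type}

/-- The permutation `π` of the gates is an automorphism of the circuit which maps every input bit
to the input bit of the renamed transition. -/
structure IsAut (C : Circuit (Tr Q Γ) D L) (σ : Equiv.Perm Q) (τ : Equiv.Perm Γ)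
    (π : Equiv.Perm C.Gate) : Prop where
  read : ∀ g, C.read (π g) = (C.read g).map (ren σ τ)
  wires : ∀ g, C.wires (π g) = (C.wires g).map fun e => (e.1, π e.2)
  fn : ∀ g, C.fn (π g) = C.fn g

theorem table_ren (σ : Equiv.Perm Q) (τ : Equiv.Perm Γ) (M : Set (Tr Q Γ)) (z : Tr Q Γ) :
    table M (ren σ τ z) = table (renM σ τ M) z := rfl

theorem IsAut.value_eq {C : Circuit (Tr Q Γ) D L} {σ : Equiv.Perm Q} {τ : Equiv.Perm Γ}
    {π : Equiv.Perm C.Gate} (h : IsAut C σ τ π) (g : C.Gate) (M : Set (Tr Q Γ)) :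
    value table C (π g) M = value table C g (renM σ τ M) := by
  induction hr : C.rank g using Nat.strong_induction_on generalizing g with
  | _ r ih =>
    rw [Pool.Agent.H429R4.GC.value_eq, Pool.Agent.H429R4.GC.value_eq, h.fn, h.read, h.wires,
      Option.map_map, Multiset.map_map]
    have h1 : table M ∘ ren σ τ = table (renM σ τ M) := funext fun z => table_ren σ τ M z
    rw [h1]
    refine congrArg (C.fn g _) (Multiset.map_congr rfl fun e he => ?_)
    exact congrArg (Prod.mk e.1) (ih (C.rank e.2) (by rw [← hr]; exact C.rank_lt g e he) e.2 rfl)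

/-- In a circuit that is symmetric under all renamings the number of wirings is at most the number
of gates. -/
theorem numWirings_le_size (q₀ q₁ : Q) (bl : Γ) (C : Circuit (Tr Q Γ) D L)
    (h : ∀ (σ : Equiv.Perm Q) (τ : Equiv.Perm Γ), σ q₀ = q₀ → σ q₁ = q₁ → τ bl = bl →
      ∃ π, IsAut C σ τ π) : numWirings table C (renamings q₀ q₁ bl) ≤ C.size := by
  let _ := C.finite
  have h1 : wirings table C (renamings q₀ q₁ bl) ⊆ Set.range fun g => view table C g id := by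
    rintro _ ⟨g, _, ⟨σ, τ, h0, h1, h2, rfl⟩, rfl⟩
    obtain ⟨π, hπ⟩ := h σ τ h0 h1 h2
    refine ⟨π g, ?_⟩
    simp only [view]
    rw [hπ.read, hπ.wires, Option.map_map, Multiset.map_map]
    simp only [Function.comp_def, id, hπ.value_eq, table_ren]
  have h2 : Nat.card (Set.range fun g => view table C g id) ≤ Nat.card C.Gate :=
    Nat.card_le_card_of_surjective (Set.rangeFactorization fun g => view table C g id)
      Set.rangeFactorization_surjective
  refine (Nat.card_mono (Set.finite_range _) h1).trans (h2.trans ?_)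
  rw [Nat.card_eq_fintype_card]
  exact le_rfl

end sym

end Pool.Agent.TH810.CW.Halting
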