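import Pool.Agent.TH810.CW.HaltUp

set_option autoImplicit false
set_option linter.unusedSectionVars false

/-!
# Probabilistic circuits with few wirings for short computations
-/

namespace Pool.Agent.TH810.CW.Halting

open Finset Pool.Agent.H550R2.Lin Pool.Agent.H550R2.Halt
open Pool.Agent.H429R4.Sem (Circuit)
open Pool.Agent.H429R4.GC (value view wirings numWirings adj relabelings clique_pair)

open Classical in
/-- The probability that the event `X` occurs if `ω` has the probability `p ω`. -/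
noncomputable def prob {Ω : Type} [Fintype Ω] (p : Ω → ℝ) (X : Ω → Prop) : ℝ :=
  ∑ ω, if X ω then p ω else 0

open Classical in
theorem card_mem_eq {P D : Type} [Fintype P] (f g : P → D)
    (h : ∀ d, Nat.card {σ // f σ = d} = Nat.card {σ // g σ = d}) (S : Set D) :
    (∑ σ, if f σ ∈ S then (1 : ℝ) else 0) = ∑ σ, if g σ ∈ S then (1 : ℝ) else 0 := by
  classical
  have h' : ∀ d, (univ.filter fun σ => f σ = d).card = (univ.filter fun σ => g σ = d).card := by
    intro d
    have := h d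
    rw [Nat.card_eq_fintype_card, Nat.card_eq_fintype_card, Fintype.card_subtype,
      Fintype.card_subtype] at this
    exact this
  have key : ∀ (f' : P → D) (T : Finset D), (∀ σ, f' σ ∈ T) →
      (univ.filter fun σ => f' σ ∈ S).card =
        ∑ d ∈ T.filter (· ∈ S), (univ.filter fun σ => f' σ = d).card := by
    intro f' T hT
    rw [Finset.card_eq_sum_card_fiberwise (f := f') (t := T.filter (· ∈ S))]
    · refine Finset.sum_congr rfl fun d hd => ?_
      congr 1
      ext σ
      rw [Finset.mem_filter, Finset.mem_filter, Finset.mem_filter]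
      constructor
      · rintro ⟨_, h2⟩
        exact ⟨Finset.mem_univ _, h2⟩
      · rintro ⟨_, h2⟩
        refine ⟨⟨Finset.mem_univ _, ?_⟩, h2⟩
        rw [h2]
        exact (Finset.mem_filter.1 hd).2
    · intro σ hσ
      have h2 := (Finset.mem_filter.1 hσ).2
      exact Finset.mem_filter.2 ⟨hT σ, h2⟩
  rw [Finset.sum_boole, Finset.sum_boole, key f (univ.image f ∪ univ.image g),
    key g (univ.image f ∪ univ.image g)]
  · congr 1
    exact Finset.sum_congr rfl fun d _ => h' d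
  · exact fun σ => Finset.mem_union_right _ (Finset.mem_image_of_mem g (Finset.mem_univ σ))
  · exact fun σ => Finset.mem_union_left _ (Finset.mem_image_of_mem f (Finset.mem_univ σ))

open Classical in
theorem prob_avg {Ω P : Type} [Fintype Ω] [Fintype P] (p : Ω → ℝ) (F : P → Ω → Prop) :
    ∑ σ, prob p (F σ) = ∑ ω, p ω * ∑ σ, if F σ ω then (1 : ℝ) else 0 := by
  unfold prob
  rw [Finset.sum_comm]
  refine Finset.sum_congr rfl fun ω _ => ?_
  rw [Finset.mul_sum]
  refine Finset.sum_congr rfl fun σ _ => ?_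
  split_ifs
  · rw [mul_one]
  · rw [mul_zero]

/-- **The lower bound for probabilistic circuits**, for the machines which contain the machines of
graphs. -/
theorem prob_few : ∃ c : ℕ, ∀ (k b : ℕ), c ≤ k → c * k ≤ 2 ^ b →
    ∀ (Q Γ : Type) [Fintype Q] [Fintype Γ] (e : SQ k b ↪ Q) (f : SG k b ↪ Γ) (K : ℕ),
      2 * k ^ 2 + 3 * k + 1 ≤ K →
      ∀ (Ω : Type) [Fintype Ω] (p : Ω → ℝ) (D L : Ω → Type)
        (C : ∀ ω, Circuit (Tr Q Γ) (D ω) (L ω)) (S : ∀ ω, Set (D ω)) (ε : ℝ),
        (∀ ω, 0 ≤ p ω) →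
        (∀ M, (Halts M (e (0, 0, 0, none)) (e (1, Fin.last k, Fin.last k, none)) (f none) K →
            1 - ε ≤ prob p fun ω => (C ω).output (table M) ∈ S ω) ∧
          (¬ Halts M (e (0, 0, 0, none)) (e (1, Fin.last k, Fin.last k, none)) (f none) K →
            (prob p fun ω => (C ω).output (table M) ∈ S ω) ≤ ε)) →
        1 - 2 * ε ≤ prob p fun ω => ((2 : ℝ) ^ b / k) ^ k ≤ (numWirings table (C ω)
          (renamings (e (0, 0, 0, none)) (e (1, Fin.last k, Fin.last k, none)) (f none)) : ℝ)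
            ^ c := by
  classical
  obtain ⟨c, hc⟩ := clique_pair 1
  refine ⟨c, fun k b hck hcb Q Γ _ _ e f K hK Ω _ p D L C S ε hp hC => ?_⟩
  have hcard : Fintype.card (Wt b) = 2 ^ b := by
    rw [Fintype.card_fun, ZMod.card, Fintype.card_fin]
  obtain ⟨G, H, hG, hH, hGH⟩ := hc (Wt b) k hck (by rw [hcard]; exact hcb)
  obtain ⟨N, hN⟩ : ∃ N : ℝ, N = Fintype.card (Equiv.Perm (Wt b)) := ⟨_, rfl⟩
  have hN0 : 0 < N := by
    rw [hN]
    exact_mod_cast Fintype.card_pos
  -- the circuits with few wirings do not distinguish the graphs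
  have heq : ∀ ω, ¬ ((2 : ℝ) ^ b / k) ^ k ≤ (numWirings table (C ω)
      (renamings (e (0, 0, 0, none)) (e (1, Fin.last k, Fin.last k, none)) (f none)) : ℝ) ^ c →
      (∑ σ : Equiv.Perm (Wt b), if (C ω).output (table (inst e f (G.comap σ))) ∈ S ω then (1 : ℝ)
        else 0) = ∑ σ : Equiv.Perm (Wt b),
          if (C ω).output (table (inst e f (H.comap σ))) ∈ S ω then (1 : ℝ) else 0 := by
    intro ω hlt
    rw [not_le] at hlt
    have hnum := numWirings_pull e f (C ω)
    have h1 : (numWirings adj (pull e f (C ω)) (relabelings (Wt b)) : ℝ) ^ c <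
        ((Fintype.card (Wt b) : ℝ) / k) ^ k := by
      rw [hcard, Nat.cast_pow, Nat.cast_ofNat]
      refine lt_of_le_of_lt ?_ hlt
      exact pow_le_pow_left₀ (Nat.cast_nonneg _) (by exact_mod_cast hnum) _
    refine card_mem_eq _ _ (fun d => ?_) (S ω)
    have h2 := hGH (D ω) (L ω) (pull e f (C ω)) d h1
    have h3 : ∀ G' : SimpleGraph (Wt b), (pull e f (C ω)).output (adj G') =
        (C ω).output (table (inst e f G')) := fun G' => pull_eval e f (C ω) G' _
    simp only [h3] at h2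
    exact h2
  have hsumG : N * (1 - ε) ≤ ∑ ω, p ω * ∑ σ : Equiv.Perm (Wt b),
      if (C ω).output (table (inst e f (G.comap σ))) ∈ S ω then (1 : ℝ) else 0 := by
    rw [← prob_avg p fun (σ : Equiv.Perm (Wt b)) ω =>
      (C ω).output (table (inst e f (G.comap σ))) ∈ S ω]
    have h1 : ∀ σ : Equiv.Perm (Wt b), 1 - ε ≤ prob p fun ω =>
        (C ω).output (table (inst e f (G.comap σ))) ∈ S ω := by
      intro σ
      refine (hC (inst e f (G.comap σ))).1 ((halts_inst e f _ hK).2 fun hf => hG ?_)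
      have h2 := hf.comap ⟨(SimpleGraph.Embedding.comap σ.symm.toEmbedding (G.comap σ)).toCopy⟩
      have h3 : (G.comap σ).comap σ.symm.toEmbedding = G := by
        ext u w
        show G.Adj (σ (σ.symm u)) (σ (σ.symm w)) ↔ _
        rw [Equiv.apply_symm_apply, Equiv.apply_symm_apply]
      rwa [h3] at h2
    calc N * (1 - ε) = ∑ _σ : Equiv.Perm (Wt b), (1 - ε) := by
          rw [Finset.sum_const, Finset.card_univ, nsmul_eq_mul, hN]
      _ ≤ _ := Finset.sum_le_sum fun σ _ => h1 σ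
  have hsumH : (∑ ω, p ω * ∑ σ : Equiv.Perm (Wt b),
      if (C ω).output (table (inst e f (H.comap σ))) ∈ S ω then (1 : ℝ) else 0) ≤ N * ε := by
    rw [← prob_avg p fun (σ : Equiv.Perm (Wt b)) ω =>
      (C ω).output (table (inst e f (H.comap σ))) ∈ S ω]
    have h1 : ∀ σ : Equiv.Perm (Wt b), (prob p fun ω =>
        (C ω).output (table (inst e f (H.comap σ))) ∈ S ω) ≤ ε := by
      intro σ
      refine (hC (inst e f (H.comap σ))).2 fun hh => (halts_inst e f _ hK).1 hh ?_
      exact (hH k (by omega)).comap ⟨(SimpleGraph.Embedding.comap σ.toEmbedding H).toCopy⟩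
    calc _ ≤ ∑ _σ : Equiv.Perm (Wt b), ε := Finset.sum_le_sum fun σ _ => h1 σ
      _ = N * ε := by rw [Finset.sum_const, Finset.card_univ, nsmul_eq_mul, hN]
  have hdiff : (∑ ω, p ω * ∑ σ : Equiv.Perm (Wt b),
        if (C ω).output (table (inst e f (G.comap σ))) ∈ S ω then (1 : ℝ) else 0) -
      (∑ ω, p ω * ∑ σ : Equiv.Perm (Wt b),
        if (C ω).output (table (inst e f (H.comap σ))) ∈ S ω then (1 : ℝ) else 0) ≤
      N * prob p fun ω => ((2 : ℝ) ^ b / k) ^ k ≤ (numWirings table (C ω)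
          (renamings (e (0, 0, 0, none)) (e (1, Fin.last k, Fin.last k, none)) (f none)) : ℝ)
            ^ c := by
    unfold prob
    rw [← Finset.sum_sub_distrib, Finset.mul_sum]
    refine Finset.sum_le_sum fun ω _ => ?_
    by_cases hω : ((2 : ℝ) ^ b / k) ^ k ≤ (numWirings table (C ω)
        (renamings (e (0, 0, 0, none)) (e (1, Fin.last k, Fin.last k, none)) (f none)) : ℝ) ^ c
    · rw [if_pos hω, ← mul_sub, mul_comm N]
      refine mul_le_mul_of_nonneg_left ?_ (hp ω)
      have h1 : (∑ σ : Equiv.Perm (Wt b),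
          if (C ω).output (table (inst e f (G.comap σ))) ∈ S ω then (1 : ℝ) else 0) ≤ N := by
        calc _ ≤ ∑ _σ : Equiv.Perm (Wt b), (1 : ℝ) :=
              Finset.sum_le_sum fun σ _ => by split_ifs <;> norm_num
          _ = N := by rw [Finset.sum_const, Finset.card_univ, nsmul_eq_mul, hN, mul_one]
      have h2 : 0 ≤ ∑ σ : Equiv.Perm (Wt b),
          if (C ω).output (table (inst e f (H.comap σ))) ∈ S ω then (1 : ℝ) else 0 :=
        Finset.sum_nonneg fun σ _ => by split_ifs <;> norm_num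
      linarith
    · rw [if_neg hω, heq ω hω, sub_self, mul_zero]
  have h5 : N * (1 - 2 * ε) ≤ N * prob p fun ω => ((2 : ℝ) ^ b / k) ^ k ≤
      (numWirings table (C ω)
        (renamings (e (0, 0, 0, none)) (e (1, Fin.last k, Fin.last k, none)) (f none)) : ℝ)
          ^ c := by
    refine le_trans ?_ hdiff
    linarith
  exact le_of_mul_le_mul_left h5 hN0

/-- **The lower bound**, in terms of the numbers of states and symbols and of the number of
steps. -/
theorem prob_halt : ∃ c d : ℕ, ∀ K n : ℕ, d ≤ K → d * K ^ 2 ≤ n →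
    ∀ (Q Γ : Type) [Fintype Q] [Fintype Γ] (q₀ q₁ : Q) (bl : Γ), q₀ ≠ q₁ →
      n ≤ Fintype.card Q → n ≤ Fintype.card Γ →
      ∀ (Ω : Type) [Fintype Ω] (p : Ω → ℝ) (D L : Ω → Type)
        (C : ∀ ω, Circuit (Tr Q Γ) (D ω) (L ω)) (S : ∀ ω, Set (D ω)) (ε : ℝ),
        (∀ ω, 0 ≤ p ω) →
        (∀ M, (Halts M q₀ q₁ bl K → 1 - ε ≤ prob p fun ω => (C ω).output (table M) ∈ S ω) ∧
          (¬ Halts M q₀ q₁ bl K → (prob p fun ω => (C ω).output (table M) ∈ S ω) ≤ ε)) →
        1 - 2 * ε ≤ prob p fun ω => ((n : ℝ) / (3 * K ^ 2)) ^ (Nat.sqrt K / 2) ≤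
          (numWirings table (C ω) (renamings q₀ q₁ bl) : ℝ) ^ c := by
  classical
  obtain ⟨c, hc⟩ := prob_few
  refine ⟨c, 4 * (c + 2) ^ 2, fun K n hK hn Q Γ _ _ q₀ q₁ bl hq hQ hΓ Ω _ p D L C S ε hp hC => ?_⟩
  obtain ⟨b, e, f, hck, hcb, hK1, rfl, rfl, rfl, hnk⟩ := params c K n hK hn bl hq hQ hΓ
  refine (hc _ b hck hcb Q Γ e f K hK1 Ω p D L C S ε hp hC).trans ?_
  unfold prob
  refine Finset.sum_le_sum fun ω _ => ?_
  have h0 : ((n : ℝ) / (3 * K ^ 2)) ^ (Nat.sqrt K / 2) ≤
      ((2 : ℝ) ^ b / ((Nat.sqrt K / 2 : ℕ) : ℝ)) ^ (Nat.sqrt K / 2) :=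
    pow_le_pow_left₀ (by positivity) hnk _
  split_ifs with h1 h2
  · exact le_rfl
  · exact absurd (h0.trans h1) h2
  · exact hp ω
  · exact le_rfl

end Pool.Agent.TH810.CW.Halting
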