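import Pool.Agent.TH810.CW.HaltNum
import Pool.Agent.H550R2.TM.Run

set_option autoImplicit false
set_option linter.unusedSectionVars false

/-!
# Symmetric circuits for short computations
-/

namespace Pool.Agent.TH810.CW.Halting

open Finset Pool.Agent.H550R2.Lin Pool.Agent.H550R2.Halt
open Pool.Agent.H429R4.Sem (Circuit)
open Pool.Agent.H429R4.GC (value view wirings numWirings)

section dp

variable {D W : Type} [Fintype D] [Fintype W] (n : W → ℕ) (ord : ∀ ω, Equiv.Perm (Fin (n ω)))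
  (U : ∀ ω, Fin (n ω) → D → Prop) (CC : ∀ ω, Fin (n ω) → Fin (n ω) → D → D → Prop)
  (E : ∀ ω, Fin (n ω) → Fin (n ω) → Prop)

/-- the gates: partial assignments and steps of the dynamic programs, and the output -/
abbrev Gt (D : Type) : Type :=
  Option (Σ ω : W, (Fact (ord ω) (E ω) D ⊕ Edg (ord ω) (E ω) D))

/-- the gate of a partial assignment -/
abbrev gF (ω : W) (f : Fact (ord ω) (E ω) D) : Gt n ord E D := some ⟨ω, Sum.inl f⟩

/-- the gate of a step -/
abbrev gE (ω : W) (e : Edg (ord ω) (E ω) D) : Gt n ord E D := some ⟨ω, Sum.inr e⟩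

open Classical in
/-- the steps which lead to a partial assignment -/
noncomputable def into (ω : W) (f : Fact (ord ω) (E ω) D) : Finset (Edg (ord ω) (E ω) D) :=
  univ.filter fun e => Valid (ord ω) (U ω) (CC ω) (E ω) e ∧
    (⟨e.1.succ, nxt (ord ω) (E ω) e.1 e.2.1 e.2.2⟩ : Fact (ord ω) (E ω) D) = f

/-- the wires -/
noncomputable def dpWires : Gt n ord E D → Multiset (Unit × Gt n ord E D)
  | none => (univ : Finset (Σ ω : W, (↥(sep (ord ω) (E ω) ((Fin.last (n ω) : Fin (n ω + 1)) : ℕ)) →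
      D))).val.map fun p => ((), gF n ord E p.1 ⟨Fin.last _, p.2⟩)
  | some ⟨ω, Sum.inl f⟩ => (into n ord U CC E ω f).val.map fun e => ((), gE n ord E ω e)
  | some ⟨ω, Sum.inr e⟩ => {((), gF n ord E ω ⟨e.1.castSucc, e.2.1⟩)}

/-- the ranks -/
def dpRank : Gt n ord E D → ℕ
  | none => 2 * ∑ ω, n ω + 1
  | some ⟨_, Sum.inl f⟩ => 2 * (f.1 : ℕ)
  | some ⟨_, Sum.inr e⟩ => 2 * (e.1 : ℕ) + 1

/-- the input bits -/
def dpRead : Gt n ord E D → Option D
  | none => none
  | some ⟨_, Sum.inl _⟩ => none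
  | some ⟨_, Sum.inr e⟩ => some e.2.2

open Classical in
/-- the functions of the gates -/
noncomputable def dpFn : Gt n ord E D → Option Bool → Multiset (Unit × Bool) → Bool
  | none => fun _ m => decide (∃ x ∈ m, x.2 = true)
  | some ⟨_, Sum.inl f⟩ => fun _ m => decide ((f.1 : ℕ) = 0 ∨ ∃ x ∈ m, x.2 = true)
  | some ⟨_, Sum.inr _⟩ => fun o m => decide (o = some true ∧ ∀ x ∈ m, x.2 = true)

theorem dpRank_lt (g : Gt n ord E D) : ∀ e ∈ dpWires n ord U CC E g,
    dpRank n ord E e.2 < dpRank n ord E g := by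
  classical
  intro e he
  rcases g with _ | ⟨ω, f | e'⟩
  · obtain ⟨p, _, rfl⟩ := Multiset.mem_map.1 he
    have h1 : n p.1 ≤ ∑ ω, n ω := Finset.single_le_sum (fun _ _ => Nat.zero_le _) (mem_univ p.1)
    show 2 * ((Fin.last (n p.1) : Fin (n p.1 + 1)) : ℕ) < 2 * ∑ ω, n ω + 1
    rw [Fin.val_last]
    omega
  · obtain ⟨e', he', rfl⟩ := Multiset.mem_map.1 he
    have h1 := (Finset.mem_filter.1 he').2.2
    show 2 * (e'.1 : ℕ) + 1 < 2 * (f.1 : ℕ)
    rw [← h1]
    show 2 * (e'.1 : ℕ) + 1 < 2 * ((e'.1.succ : Fin (n ω + 1)) : ℕ)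
    rw [Fin.val_succ]
    omega
  · rw [Multiset.mem_singleton.1 he]
    show 2 * ((e'.1.castSucc : Fin (n ω + 1)) : ℕ) < 2 * (e'.1 : ℕ) + 1
    rw [Fin.val_castSucc]
    omega

/-- the circuit of the dynamic programs -/
noncomputable def dp : Circuit D Bool Unit where
  Gate := Gt n ord E D
  finite := by
    classical
    exact inferInstance
  rank := dpRank n ord E
  read := dpRead n ord E
  wires := dpWires n ord U CC E
  rank_lt := dpRank_lt n ord U CC E
  fn := dpFn n ord E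
  out := none

open Classical in
/-- a set as input bits -/
noncomputable def tb (M : Set D) : D → Bool := fun z => decide (z ∈ M)

theorem tb_true {M : Set D} {z : D} : tb M z = true ↔ z ∈ M := by
  classical
  unfold tb
  exact decide_eq_true_iff

/-- the value of a gate -/
noncomputable def vl (M : Set D) (g : Gt n ord E D) : Bool := value tb (dp n ord U CC E) g M

theorem vl_eq (M : Set D) (g : Gt n ord E D) : vl n ord U CC E M g =
    dpFn n ord E g ((dpRead n ord E g).map (tb M))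
      ((dpWires n ord U CC E g).map fun e => (e.1, vl n ord U CC E M e.2)) :=
  Pool.Agent.H429R4.GC.value_eq tb (dp n ord U CC E) g M

theorem vl_none (M : Set D) : vl n ord U CC E M none = true ↔
    ∃ ω, ∃ β, vl n ord U CC E M (gF n ord E ω ⟨Fin.last _, β⟩) = true := by
  classical
  rw [vl_eq]
  unfold dpFn
  rw [decide_eq_true_iff]
  constructor
  · rintro ⟨x, hx, h⟩
    obtain ⟨e, he, rfl⟩ := Multiset.mem_map.1 hx
    obtain ⟨p, _, rfl⟩ := Multiset.mem_map.1 he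
    exact ⟨p.1, p.2, h⟩
  · rintro ⟨ω, β, h⟩
    exact ⟨_, Multiset.mem_map.2 ⟨_, Multiset.mem_map.2 ⟨⟨ω, β⟩, Finset.mem_univ _, rfl⟩, rfl⟩, h⟩

theorem vl_fact (M : Set D) (ω : W) (f : Fact (ord ω) (E ω) D) :
    vl n ord U CC E M (gF n ord E ω f) = true ↔ (f.1 : ℕ) = 0 ∨
      ∃ e ∈ into n ord U CC E ω f, vl n ord U CC E M (gE n ord E ω e) = true := by
  classical
  rw [vl_eq]
  unfold dpFn
  rw [decide_eq_true_iff]
  refine or_congr Iff.rfl ?_
  constructor
  · rintro ⟨x, hx, h⟩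
    obtain ⟨e, he, rfl⟩ := Multiset.mem_map.1 hx
    obtain ⟨e', he', rfl⟩ := Multiset.mem_map.1 he
    exact ⟨e', he', h⟩
  · rintro ⟨e, he, h⟩
    exact ⟨_, Multiset.mem_map.2 ⟨_, Multiset.mem_map.2 ⟨e, he, rfl⟩, rfl⟩, h⟩

theorem vl_edg (M : Set D) (ω : W) (e : Edg (ord ω) (E ω) D) :
    vl n ord U CC E M (gE n ord E ω e) = true ↔ e.2.2 ∈ M ∧
      vl n ord U CC E M (gF n ord E ω ⟨e.1.castSucc, e.2.1⟩) = true := by
  classical
  rw [vl_eq]
  unfold dpFn
  rw [decide_eq_true_iff]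
  refine and_congr ?_ ?_
  · show some (tb M e.2.2) = some true ↔ _
    rw [Option.some.injEq, tb_true]
  · constructor
    · intro h
      exact h _ (Multiset.mem_map.2 ⟨_, Multiset.mem_singleton_self _, rfl⟩)
    · intro h x hx
      obtain ⟨e', he', rfl⟩ := Multiset.mem_map.1 hx
      rw [Multiset.mem_singleton.1 he']
      exact h

theorem supp_of_vl [Nonempty D] (M : Set D) (ω : W) : ∀ (i : ℕ) (f : Fact (ord ω) (E ω) D),
    (f.1 : ℕ) = i → vl n ord U CC E M (gF n ord E ω f) = true →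
      Supp (ord ω) (U ω) (CC ω) (E ω) M (f.1 : ℕ) f.2 := by
  classical
  intro i
  induction i with
  | zero =>
    rintro ⟨j, β⟩ hj _
    dsimp only at hj
    obtain ⟨d⟩ := ‹Nonempty D›
    have h0 : ∀ x, ¬ ((ord ω).symm x : ℕ) < (j : ℕ) := fun x => by omega
    refine ⟨fun _ => d, fun x hx => absurd hx (h0 x), fun x y hx => absurd hx (h0 x), fun x => ?_⟩
    exact absurd (mem_sep.1 x.2).1 (h0 _)
  | succ i ih =>
    intro f hf hv
    rcases (vl_fact n ord U CC E M ω f).1 hv with h | ⟨e, he, h⟩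
    · omega
    · obtain ⟨hval, hnx⟩ := (Finset.mem_filter.1 he).2
      obtain ⟨hM, hF⟩ := (vl_edg n ord U CC E M ω e).1 h
      have h1 : ((⟨e.1.castSucc, e.2.1⟩ : Fact (ord ω) (E ω) D).1 : ℕ) = i := by
        rw [← hnx] at hf
        have h2 : ((e.1.succ : Fin (n ω + 1)) : ℕ) = i + 1 := hf
        rw [Fin.val_succ] at h2
        show ((e.1.castSucc : Fin (n ω + 1)) : ℕ) = i
        rw [Fin.val_castSucc]
        omega
      have h2 := ih _ h1 hF
      rw [← hnx]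
      exact Supp.step (ord ω) (U ω) (CC ω) (E ω) hval hM h2

theorem vl_of_sol (M : Set D) (ω : W) (a : Fin (n ω) → D) (h1 : ∀ x, U ω x (a x) ∧ a x ∈ M)
    (h2 : ∀ x y, E ω x y → CC ω x y (a x) (a y)) (i : Fin (n ω + 1)) :
    vl n ord U CC E M (gF n ord E ω ⟨i, fun x => a x⟩) = true := by
  classical
  induction i using Fin.induction with
  | zero => exact (vl_fact n ord U CC E M ω _).2 (Or.inl rfl)
  | succ i ih =>
    have h3 : Valid (ord ω) (U ω) (CC ω) (E ω) ⟨i, fun x => a x, a (ord ω i)⟩ :=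
      ⟨(h1 _).1, fun h => h2 _ _ h, fun x => ⟨fun h => h2 _ _ h, fun h => h2 _ _ h⟩⟩
    have h5 : nxt (ord ω) (E ω) i (fun x => a x) (a (ord ω i)) =
        fun x : ↥(sep (ord ω) (E ω) ((i.succ : Fin (n ω + 1)) : ℕ)) => a x := by
      funext x
      unfold nxt
      by_cases h6 : (x : Fin (n ω)) ∈ sep (ord ω) (E ω) (i : ℕ)
      · rw [dif_pos h6]
      · rw [dif_neg h6, eq_ord (ord ω) (E ω) x.2 h6]
    refine (vl_fact n ord U CC E M ω _).2 (Or.inr ⟨⟨i, fun x => a x, a (ord ω i)⟩, ?_, ?_⟩)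
    · refine Finset.mem_filter.2 ⟨Finset.mem_univ _, h3, ?_⟩
      dsimp only
      rw [h5]
    · exact (vl_edg n ord U CC E M ω _).2 ⟨(h1 _).2, ih⟩

theorem dp_output [Nonempty D] (M : Set D) : (dp n ord U CC E).output (tb M) = true ↔
    ∃ ω, ∃ a : Fin (n ω) → D, (∀ x, U ω x (a x) ∧ a x ∈ M) ∧
      ∀ x y, E ω x y → CC ω x y (a x) (a y) := by
  refine (vl_none n ord U CC E M).trans ⟨?_, ?_⟩
  · rintro ⟨ω, β, h⟩
    obtain ⟨a, h1, h2, _⟩ := supp_of_vl n ord U CC E M ω _ _ rfl h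
    exact ⟨ω, a, fun x => h1 x (Fin.is_lt _), fun x y hE => h2 x y (Fin.is_lt _) (Fin.is_lt _) hE⟩
  · rintro ⟨ω, a, h1, h2⟩
    exact ⟨ω, _, vl_of_sol n ord U CC E M ω a h1 h2 (Fin.last _)⟩

/-- the action on the gates -/
def actG (g : Equiv.Perm D) : Equiv.Perm (Gt n ord E D) :=
  Equiv.optionCongr (Equiv.sigmaCongrRight fun ω =>
    (actF (ord ω) (E ω) g).sumCongr (actE (ord ω) (E ω) g))

theorem dpRead_act (g : Equiv.Perm D) (h : Gt n ord E D) :
    dpRead n ord E (actG n ord E g h) = (dpRead n ord E h).map g := by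
  rcases h with _ | ⟨ω, f | e⟩
  · rfl
  · rfl
  · rfl

theorem dpFn_act (g : Equiv.Perm D) (h : Gt n ord E D) :
    dpFn n ord E (actG n ord E g h) = dpFn n ord E h := by
  rcases h with _ | ⟨ω, f | e⟩
  · rfl
  · rfl
  · rfl

theorem into_act {g : Equiv.Perm D} (hU : ∀ ω x e, U ω x (g e) ↔ U ω x e)
    (hC : ∀ ω x y e e', CC ω x y (g e) (g e') ↔ CC ω x y e e') (ω : W)
    (f : Fact (ord ω) (E ω) D) : into n ord U CC E ω (actF (ord ω) (E ω) g f) =
      (into n ord U CC E ω f).map (actE (ord ω) (E ω) g).toEmbedding := by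
  classical
  have hv : ∀ e : Edg (ord ω) (E ω) D, Valid (ord ω) (U ω) (CC ω) (E ω) (actE (ord ω) (E ω) g e) ↔
      Valid (ord ω) (U ω) (CC ω) (E ω) e := by
    intro e
    unfold Valid
    refine and_congr (hU _ _ _) (and_congr (imp_congr_right fun _ => hC _ _ _ _ _) ?_)
    refine forall_congr' fun x => and_congr (imp_congr_right fun _ => hC _ _ _ _ _)
      (imp_congr_right fun _ => hC _ _ _ _ _)
  have hn : ∀ e : Edg (ord ω) (E ω) D, (⟨(actE (ord ω) (E ω) g e).1.succ,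
      nxt (ord ω) (E ω) (actE (ord ω) (E ω) g e).1 (actE (ord ω) (E ω) g e).2.1
        (actE (ord ω) (E ω) g e).2.2⟩ : Fact (ord ω) (E ω) D) =
      actF (ord ω) (E ω) g ⟨e.1.succ, nxt (ord ω) (E ω) e.1 e.2.1 e.2.2⟩ := by
    intro e
    have := nxt_map (ord ω) (E ω) g e.1 e.2.1 e.2.2
    show (⟨e.1.succ, nxt (ord ω) (E ω) e.1 (fun x => g (e.2.1 x)) (g e.2.2)⟩ :
      Fact (ord ω) (E ω) D) = _
    rw [this]
    rfl
  ext e
  obtain ⟨e, rfl⟩ := (actE (ord ω) (E ω) g).surjective e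
  rw [Finset.mem_map_equiv, Equiv.symm_apply_apply]
  unfold into
  rw [Finset.mem_filter, Finset.mem_filter, hv, hn, (actF (ord ω) (E ω) g).injective.eq_iff]
  exact and_congr_left fun _ => ⟨fun _ => Finset.mem_univ _, fun _ => Finset.mem_univ _⟩

theorem dpWires_act {g : Equiv.Perm D} (hU : ∀ ω x e, U ω x (g e) ↔ U ω x e)
    (hC : ∀ ω x y e e', CC ω x y (g e) (g e') ↔ CC ω x y e e') (h : Gt n ord E D) :
    dpWires n ord U CC E (actG n ord E g h) =
      (dpWires n ord U CC E h).map fun e => (e.1, actG n ord E g e.2) := by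
  classical
  rcases h with _ | ⟨ω, f | e⟩
  · show (univ : Finset (Σ ω : W, (↥(sep (ord ω) (E ω) ((Fin.last (n ω) : Fin (n ω + 1)) : ℕ)) →
        D))).val.map (fun p => ((), gF n ord E p.1 ⟨Fin.last _, p.2⟩)) =
      ((univ : Finset (Σ ω : W, (↥(sep (ord ω) (E ω) ((Fin.last (n ω) : Fin (n ω + 1)) : ℕ)) →
        D))).val.map fun p => ((), gF n ord E p.1 ⟨Fin.last _, p.2⟩)).map
          fun e => (e.1, actG n ord E g e.2)
    rw [Multiset.map_map]
    let ρ : Equiv.Perm (Σ ω : W, (↥(sep (ord ω) (E ω) ((Fin.last (n ω) : Fin (n ω + 1)) : ℕ)) →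
        D)) := Equiv.sigmaCongrRight fun _ => Equiv.arrowCongr (Equiv.refl _) g
    have h1 : (univ : Finset (Σ ω : W, (↥(sep (ord ω) (E ω)
        ((Fin.last (n ω) : Fin (n ω + 1)) : ℕ)) → D))) = univ.map ρ.toEmbedding :=
      (Finset.map_univ_equiv ρ).symm
    conv_lhs => rw [h1]
    rw [Finset.map_val, Multiset.map_map]
    rfl
  · show (into n ord U CC E ω (actF (ord ω) (E ω) g f)).val.map (fun e => ((), gE n ord E ω e)) =
      ((into n ord U CC E ω f).val.map fun e => ((), gE n ord E ω e)).map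
        fun e => (e.1, actG n ord E g e.2)
    rw [into_act n ord U CC E hU hC, Finset.map_val, Multiset.map_map, Multiset.map_map]
    rfl
  · rfl

theorem dp_size [Nonempty D] (T w : ℕ) (hn : ∀ ω, n ω ≤ T)
    (hsep : ∀ ω, ∀ i ≤ n ω, (sep (ord ω) (E ω) i).card ≤ w) :
    (dp n ord U CC E).size ≤ Fintype.card W * ((2 * T + 1) * Fintype.card D ^ (w + 1)) + 1 := by
  classical
  have h0 : (dp n ord U CC E).size = Fintype.card (Gt n ord E D) :=
    @Fintype.card_congr _ _ (dp n ord U CC E).finite _ (Equiv.refl (Gt n ord E D))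
  rw [h0, Fintype.card_option, Fintype.card_sigma]
  refine Nat.add_le_add_right ?_ 1
  calc ∑ ω, Fintype.card (Fact (ord ω) (E ω) D ⊕ Edg (ord ω) (E ω) D)
      ≤ ∑ _ω : W, (2 * T + 1) * Fintype.card D ^ (w + 1) := by
        apply Finset.sum_le_sum
        intro ω _
        refine (card_vars (ord ω) (E ω) w (hsep ω)).trans (Nat.mul_le_mul_right _ ?_)
        have := hn ω
        omega
    _ = _ := by rw [Finset.sum_const, Finset.card_univ, smul_eq_mul]

end dp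

/-- **Symmetric circuits for short computations.** -/
theorem halt_circuit {Q Γ : Type} [Fintype Q] [Fintype Γ] {q₀ q₁ : Q} {bl : Γ} (hq : q₀ ≠ q₁)
    (K : ℕ) :
    ∃ C : Circuit (Tr Q Γ) Bool Unit,
      (∀ M, C.output (table M) ∈ ({true} : Set Bool) ↔ Halts M q₀ q₁ bl K) ∧
      (∀ (σ : Equiv.Perm Q) (τ : Equiv.Perm Γ), σ q₀ = q₀ → σ q₁ = q₁ → τ bl = bl →
        ∃ π, IsAut C σ τ π) ∧
      C.size ≤ K * 3 ^ K * ((2 * K + 1) *
        (3 * Fintype.card Q ^ 2 * Fintype.card Γ ^ 2) ^ (3 * Nat.sqrt K + 3)) + 1 := by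
  classical
  have hD : Nonempty (Tr Q Γ) := ⟨(q₀, bl, q₀, bl, 0)⟩
  have hcard : Fintype.card (Tr Q Γ) = 3 * Fintype.card Q ^ 2 * Fintype.card Γ ^ 2 := by
    rw [Fintype.card_prod, Fintype.card_prod, Fintype.card_prod, Fintype.card_prod,
      Fintype.card_fin]
    ring
  let W : Type := Σ t : Fin K, (Fin ((t : ℕ) + 1) → Fin 3)
  have hW : Fintype.card W ≤ K * 3 ^ K := by
    rw [Fintype.card_sigma]
    calc ∑ t : Fin K, Fintype.card (Fin ((t : ℕ) + 1) → Fin 3) ≤ ∑ _t : Fin K, 3 ^ K := by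
          apply Finset.sum_le_sum
          intro t _
          rw [Fintype.card_fun, Fintype.card_fin, Fintype.card_fin]
          exact Nat.pow_le_pow_right (by norm_num) t.2
      _ = _ := by rw [Finset.sum_const, Finset.card_univ, Fintype.card_fin, smul_eq_mul]
  have hord : ∀ ω : W, ∃ ord : Equiv.Perm (Fin ((ω.1 : ℕ) + 1)),
      ∀ i, (sep ord (Nb (pos ω.2)) i).card ≤ 3 * Nat.sqrt K + 2 := fun ω =>
    exists_ord (n := (ω.1 : ℕ) + 1) K ω.1.2 (pos_step ω.2)
  choose ord hsep using hord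
  refine ⟨dp (fun ω : W => (ω.1 : ℕ) + 1) ord (fun ω => UT q₀ q₁ bl ω.2) (fun ω => CT ω.2)
    (fun ω => Nb (pos ω.2)), fun M => ?_, fun σ τ h0 h1 h2 => ?_, ?_⟩
  · rw [Set.mem_singleton_iff, halts_iff hq]
    refine (dp_output (fun ω : W => (ω.1 : ℕ) + 1) ord (fun ω => UT q₀ q₁ bl ω.2)
      (fun ω => CT ω.2) (fun ω => Nb (pos ω.2)) M).trans ⟨?_, ?_⟩
    · rintro ⟨ω, a, h⟩
      exact ⟨ω.1, ω.1.2, ω.2, a, h⟩
    · rintro ⟨t, ht, m, a, h⟩
      exact ⟨⟨⟨t, ht⟩, m⟩, a, h⟩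
  · have hU : ∀ (ω : W) x e, UT q₀ q₁ bl ω.2 x (ren σ τ e) ↔ UT q₀ q₁ bl ω.2 x e := fun ω x e =>
      ut_ren ω.2 h0 h1 h2 x e
    have hC : ∀ (ω : W) x y e e', CT ω.2 x y (ren σ τ e) (ren σ τ e') ↔ CT ω.2 x y e e' :=
      fun ω x y e e' => ct_ren ω.2 σ τ x y e e'
    exact ⟨actG _ _ _ (ren σ τ), dpRead_act _ _ _ _, dpWires_act _ _ _ _ _ hU hC,
      dpFn_act _ _ _ _⟩
  · have h := dp_size (fun ω : W => (ω.1 : ℕ) + 1) ord (fun ω => UT q₀ q₁ bl ω.2)
      (fun ω => CT ω.2) (fun ω => Nb (pos ω.2)) K (3 * Nat.sqrt K + 2) (fun ω => ω.1.2)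
      fun ω i _ => hsep ω i
    rw [hcard] at h
    exact h.trans (Nat.add_le_add_right (Nat.mul_le_mul_right _ hW) 1)

end Pool.Agent.TH810.CW.Halting
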