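import Pool.Agent.H429R4.TR.Random

/-!
# Matrix-vector products with free preprocessing by randomized circuits with arbitrary gates
-/

namespace Pool.Agent.TH810.CW

open Finset
open Pool.Agent.H429R4.FW Pool.Agent.H429R4.TR
open Pool.Agent.H429R4.MM (Va sand relabelings)
open Pool.Agent.H522R3.SW (Vec Pat PP PP_apply enc enc_mem enc_single code card_code
  card_dualAnnihilator
  exists_columns)

set_option linter.unusedSectionVars false

section on

variable {X I B D L G : Type} [AddCommGroup G] [Module (ZMod 2) G] {a : G → X → X}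

/-- The transforms under the maps in `A` of the wirings of the gates of the set `S`. -/
def wiringsOn (enc : X → B → I) (C : Circuit I B D L) (S : Set C.Gate) (A : Set (X → X)) :
    Set (Option (X → I) × Multiset (L × (X → D))) :=
  {w | ∃ g ∈ S, ∃ f ∈ A, view enc C g f = w}

/-- The number of different transforms of the wirings of the gates of the set `S` under the maps
in `A`. -/
noncomputable def numWiringsOn (enc : X → B → I) (C : Circuit I B D L) (S : Set C.Gate)
    (A : Set (X → X)) : ℕ :=
  Nat.card (wiringsOn enc C S A)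

theorem wiringsOn_closed (ha : IsAction a) (enc : X → B → I) (C : Circuit I B D L)
    (S : Set C.Gate) :
    ∀ ξ ∈ wiringsOn enc C S (Set.range a), ∀ u : G,
      pre (a u) ξ ∈ wiringsOn enc C S (Set.range a) := by
  rintro ξ ⟨g, hg, f, ⟨u', rfl⟩, rfl⟩ u
  refine ⟨g, hg, a u' ∘ a u, ⟨u' + u, ?_⟩, ?_⟩
  · funext x
    rw [Function.comp_apply, ha.add]
  · rw [pre_view]

theorem wiringsOn_finite [Finite G] (enc : X → B → I) (C : Circuit I B D L) (S : Set C.Gate) :
    (wiringsOn enc C S (Set.range a)).Finite := by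
  refine (wirings_finite (a := a) enc C).subset ?_
  rintro w ⟨g, _, f, hf, rfl⟩
  exact ⟨g, f, hf, rfl⟩

theorem mem_wiringsOn (ha : IsAction a) (enc : X → B → I) (C : Circuit I B D L)
    (S : Set C.Gate) (g : C.Gate) (hg : g ∈ S) :
    view enc C g id ∈ wiringsOn enc C S (Set.range a) :=
  ⟨g, hg, id, ⟨0, funext fun x => ha.zero x⟩, rfl⟩

open Classical in
theorem sum_index_le_on [Finite G] (ha : IsAction a) (enc : X → B → I) (C : Circuit I B D L)
    (S : Set C.Gate) (Hs : Finset (Submodule (ZMod 2) G))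
    (hHs : ∀ H ∈ Hs, ∃ g ∈ S, vfixer ha enc C g = H) (P : Submodule (ZMod 2) G → ℕ)
    (hP : ∀ H, P H * Nat.card H = Nat.card G) :
    ∑ H ∈ Hs, P H ≤ numWiringsOn enc C S (Set.range a) := by
  have hfin := wiringsOn_finite (a := a) enc C S
  have : Finite (wiringsOn enc C S (Set.range a)) := hfin
  let _ := Fintype.ofFinite (wiringsOn enc C S (Set.range a))
  let hρ := isAction_pre (I := I) (D := D) (L := L) ha
  have h1 : ∀ H ∈ Hs, P H ≤
      (univ.filter fun ξ : wiringsOn enc C S (Set.range a) => stab hρ ξ.1 = H).card := by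
    intro H hH
    obtain ⟨g, hg, rfl⟩ := hHs H hH
    have h2 := orbit_le hρ (wiringsOn enc C S (Set.range a)) hfin (wiringsOn_closed ha enc C S)
      (mem_wiringsOn ha enc C S g hg)
    rw [← vfixer_eq_stab, ← hP] at h2
    have h3 : 0 < Nat.card (vfixer ha enc C g) := Nat.card_pos
    have h4 := Nat.le_of_mul_le_mul_right h2 h3
    rwa [Nat.card_eq_fintype_card, Fintype.card_subtype] at h4
  refine (sum_le_sum h1).trans ?_
  rw [← card_biUnion]
  · refine (card_le_card (subset_univ _)).trans (le_of_eq ?_)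
    rw [card_univ, ← Nat.card_eq_fintype_card]
    rfl
  · intro H _ H' _ hne
    rw [Function.onFun, Finset.disjoint_left]
    intro ξ hξ hξ'
    rw [mem_filter] at hξ hξ'
    exact hne (hξ.2.symm.trans hξ'.2)

end on

open Classical in
/-- The number of triples seen by the gates of `S` is at most the number of their wirings. -/
theorem seen_le_on {X I B D L : Type} {r κ : ℕ} {a : Fin r → Vec κ} (ha : Function.Injective a)
    {α : Gp κ → X → X} (hα : IsAction α) (enc : X → B → I) (C : Circuit I B D L)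
    (S : Set C.Gate) :
    (univ.filter fun T : Fin r × Fin r × Fin r =>
      ∃ g ∈ S, SeesT a (vfixer hα enc C g) T).card ≤ numWiringsOn enc C S (Set.range α) := by
  let Hs : Finset (Submodule (ZMod 2) (Gp κ)) :=
    ((@Finset.univ C.Gate C.finite).filter fun g => g ∈ S).image fun g => vfixer hα enc C g
  have h1 : (univ.filter fun T : Fin r × Fin r × Fin r =>
      ∃ g ∈ S, SeesT a (vfixer hα enc C g) T) ⊆
      Hs.biUnion fun H => univ.filter fun T => SeesT a H T := by
    intro T hT
    rw [mem_filter] at hT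
    obtain ⟨_, g, hgS, hg⟩ := hT
    rw [mem_biUnion]
    refine ⟨vfixer hα enc C g, mem_image_of_mem _
      (mem_filter.2 ⟨@Finset.mem_univ _ C.finite g, hgS⟩), ?_⟩
    rw [mem_filter]
    exact ⟨mem_univ _, hg⟩
  refine (card_le_card h1).trans (card_biUnion_le.trans ?_)
  have h2 : ∀ H ∈ Hs, (univ.filter fun T : Fin r × Fin r × Fin r => SeesT a H T).card ≤
      Nat.card H.dualAnnihilator := by
    intro H _
    refine count_two ha _ _ ?_
    intro T hT
    have hT' := (mem_filter.mp hT).2
    rw [Submodule.mem_dualAnnihilator, Submodule.mem_dualAnnihilator]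
    exact ⟨fun μ hμ => (hT' μ hμ).1, fun μ hμ => (hT' μ hμ).2⟩
  refine (sum_le_sum h2).trans ?_
  refine sum_index_le_on hα enc C S Hs ?_ (fun H => Nat.card H.dualAnnihilator) ?_
  · intro H hH
    rw [mem_image] at hH
    obtain ⟨g, hgm, hg⟩ := hH
    exact ⟨g, (mem_filter.1 hgm).2, hg⟩
  · intro H
    rw [card_dualAnnihilator, Nat.card_eq_fintype_card]

/-- What enters the gate `g` (the input that it reads and the values on its wires) is the same for
all pairs of matrices with the same `π`. -/
def EntersFrom {M R D L Y : Type} (C : Circuit R (Va M) D L) (π : Mats M R → Y) (g : C.Gate) :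
    Prop :=
  ∀ x y, π x = π y → (C.read g).map (encM x) = (C.read g).map (encM y) ∧
    ∀ e ∈ C.wires g, value encM C e.2 x = value encM C e.2 y

/-- The first matrix. -/
def fstM {M R : Type} (x : Mats M R) : M × M → R := fun e => x (.inl e)

/-- The second matrix (its columns are the vectors). -/
def sndM {M R : Type} (x : Mats M R) : M × M → R := fun e => x (.inr e)

/-- The gates which are not free: something that enters the gate depends on the vectors, and
something that enters the gate depends on the matrix. -/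
def online {M R D L : Type} (C : Circuit R (Va M) D L) : Set C.Gate :=
  {g | ¬ EntersFrom C fstM g ∧ ¬ EntersFrom C sndM g}

variable {r : ℕ} {Z R : Type}

section one

variable {κ : ℕ} (a : Fin r → Vec κ)

theorem mem_vfixer_of_entersFrom {D L Y : Type} (C : Circuit R (Va (Jx r Z)) D L)
    (π : Mats (Jx r Z) R → Y) (g : C.Gate) (hg : EntersFrom C π g) (μ : Gp κ)
    (hμ : ∀ x, π (actM (Z := Z) a R μ x) = π x) :
    μ ∈ vfixer (actM_isAction (Z := Z) a R) encM C g := by
  rw [mem_vfixer]
  refine Prod.ext ?_ ?_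
  · change (C.read g).map (fun c x => encM (actM a R μ x) c) =
      (C.read g).map (fun c x => encM x c)
    rcases hβ : C.read g with _ | β
    · rfl
    · simp only [Option.map_some, Option.some.injEq]
      funext x
      have h1 := (hg _ _ (hμ x)).1
      rw [hβ] at h1
      simp only [Option.map_some, Option.some.injEq] at h1
      exact h1
  · change (C.wires g).map (fun e => (e.1, fun x => value encM C e.2 (actM a R μ x))) =
      (C.wires g).map (fun e => (e.1, fun x => value encM C e.2 x))
    refine Multiset.map_congr rfl fun e he => ?_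
    refine Prod.ext rfl ?_
    funext x
    exact (hg _ _ (hμ x)).2 e he

theorem fstM_act (ν : Vec κ) (x : Mats (Jx r Z) R) :
    fstM (actM (Z := Z) a R (0, 0, ν) x) = fstM x := by
  funext e
  obtain ⟨p, k⟩ := e
  change x (shW (PP a (0, 0, ν)) (.inl (p, k))) = x (.inl (p, k))
  rw [PP_apply]
  change x (.inl (swp (enc a 0) p, swp (enc a 0) k)) = x (.inl (p, k))
  rw [map_zero, swp_zero, swp_zero]

theorem sndM_act (ν : Vec κ) (x : Mats (Jx r Z) R) :
    sndM (actM (Z := Z) a R (ν, 0, 0) x) = sndM x := by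
  funext e
  obtain ⟨p, k⟩ := e
  change x (shW (PP a (ν, 0, 0)) (.inr (p, k))) = x (.inr (p, k))
  rw [PP_apply]
  change x (.inr (swp (enc a 0) p, swp (enc a 0) k)) = x (.inr (p, k))
  rw [map_zero, swp_zero, swp_zero]

/-- Free gates see no triple. -/
theorem online_of_sees (ha0 : ∀ u, a u ≠ 0) {D L : Type} (C : Circuit R (Va (Jx r Z)) D L)
    (g : C.Gate) (T : Fin r × Fin r × Fin r)
    (hs : SeesT a (vfixer (actM_isAction (Z := Z) a R) encM C g) T) : g ∈ online C := by
  constructor
  · intro hg
    apply ha0 T.2.2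
    funext c
    have h1 := (hs _ (mem_vfixer_of_entersFrom a C fstM g hg (0, 0, Pi.single c 1)
      (fstM_act a _))).2
    rw [PP_apply] at h1
    change enc a 0 T.2.1 + enc a (Pi.single c 1) T.2.2 = 0 at h1
    rw [map_zero, Pi.zero_apply, zero_add, enc_single] at h1
    exact h1
  · intro hg
    apply ha0 T.1
    funext c
    have h1 := (hs _ (mem_vfixer_of_entersFrom a C sndM g hg (Pi.single c 1, 0, 0)
      (sndM_act a _))).1
    rw [PP_apply] at h1
    change enc a (Pi.single c 1) T.1 + enc a 0 T.2.1 = 0 at h1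
    rw [map_zero, Pi.zero_apply, add_zero, enc_single] at h1
    exact h1

end one

theorem numWiringsOn_mono {M D L : Type} [Finite M] (C : Circuit R (Va M) D L) (S : Set C.Gate)
    {A' : Set (Mats M R → Mats M R)} {A : Set (Va M → Va M)} (h : A' ⊆ pull '' A) :
    numWiringsOn encM C S A' ≤ numWiringsOn encM C S (pull '' A) := by
  have := C.finite
  have hfin : (wiringsOn encM C S (pull '' A)).Finite := by
    have h1 : wiringsOn encM C S (pull '' A) ⊆
        Set.range fun p : C.Gate × (Va M → Va M) => view encM C p.1 (pull p.2) := by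
      rintro _ ⟨g, _, _, ⟨f, _, rfl⟩, rfl⟩
      exact ⟨(g, f), rfl⟩
    exact (Set.finite_range _).subset h1
  refine Nat.card_mono hfin ?_
  rintro _ ⟨g, hg, f, hf, rfl⟩
  exact ⟨g, hg, f, h hf, rfl⟩

open Classical in
/-- **Randomized circuits for matrix-vector products, with free preprocessing.** -/
theorem omv_bound (r : ℕ) (hr : 1 ≤ r) :
    ∃ Γ : AddSubgroup (Fin r → ZMod 2), Nat.card Γ ≤ 2 * r ∧
      ∀ (R Z Ω : Type) [Semiring R] [Nontrivial R] [Fintype Z] [Fintype Ω] (p : Ω → ℝ),
        (∀ ω, 0 ≤ p ω) → ∑ ω, p ω = 1 →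
        ∀ (D L : Type) (dec : D → R) (C : Ω → Circuit R (Va (Jx r Z)) D L)
          (out : ∀ ω, Jx r Z → Jx r Z → (C ω).Gate) (ε : ℝ),
          (∀ x : Mats (Jx r Z) R, (∀ v, x v = 0 ∨ x v = 1) →
            ∑ ω with ¬ Right (C ω) (out ω) dec x, p ω ≤ ε) →
          ∀ A : Set (Va (Jx r Z) → Va (Jx r Z)),
            (∀ x ∈ Γ, ∀ y ∈ Γ, ∀ z ∈ Γ, sand (swp x) (swp y) (swp z) ∈ A) →
            (1 - 2 * ε) * (r : ℝ) ^ 3 ≤
              ∑ ω, p ω * (numWiringsOn encM (C ω) (online (C ω)) (pull '' A) : ℝ) := by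
  obtain ⟨κ, hκ, a, ha, ha0⟩ := exists_columns r hr
  refine ⟨code a, (card_code a).trans hκ, ?_⟩
  intro R Z Ω _ _ _ _ p hp hp1 D L dec C out ε herr A hA
  let S : (Fin r × Fin r × Fin r) → Ω → Prop := fun T ω =>
    ∃ g, SeesT a (vfixer (actM_isAction (Z := Z) a R) encM (C ω) g) T
  -- the probability that a triple is seen
  have hT : ∀ T, 1 - 2 * ε ≤ ∑ ω with S T ω, p ω := by
    intro T
    have h1 : ∑ t : Fin 2 → ZMod 2, ∑ ω with ¬ Right (C ω) (out ω) dec (mat T t), p ω ≤
        4 * ε := by
      refine (Finset.sum_le_sum fun t _ => herr (mat T t) (mat_zero_one T t)).trans ?_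
      rw [Finset.sum_const, nsmul_eq_mul]
      have h3 : (univ : Finset (Fin 2 → ZMod 2)).card = 4 := by decide
      rw [h3]
      norm_num
    have h2 : ∑ t : Fin 2 → ZMod 2, ∑ ω with ¬ Right (C ω) (out ω) dec (mat T t), p ω =
        ∑ ω, p ω * ((univ.filter fun t : Fin 2 → ZMod 2 =>
          ¬ Right (C ω) (out ω) dec (mat T t)).card : ℝ) := by
      simp only [Finset.sum_filter]
      rw [Finset.sum_comm]
      refine Finset.sum_congr rfl fun ω _ => ?_
      rw [← Finset.sum_filter, Finset.sum_const, nsmul_eq_mul, mul_comm]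
    have h3 : 2 * ∑ ω with ¬ S T ω, p ω ≤ 4 * ε := by
      refine le_trans ?_ (h2 ▸ h1)
      rw [Finset.mul_sum, Finset.sum_filter]
      refine Finset.sum_le_sum fun ω _ => ?_
      by_cases h4 : S T ω
      · rw [if_neg (not_not.2 h4)]
        exact mul_nonneg (hp ω) (Nat.cast_nonneg _)
      · rw [if_pos h4]
        obtain ⟨e, he⟩ := not_sees_errs a T (C ω) (out ω) dec h4
        have h5 : 2 ≤ (univ.filter fun t : Fin 2 → ZMod 2 =>
            ¬ Right (C ω) (out ω) dec (mat T t)).card := by
          refine half_wrong (e := e) fun t => ?_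
          rw [mem_filter, mem_filter]
          rcases he t with h6 | h6
          · exact Or.inl ⟨mem_univ _, h6⟩
          · exact Or.inr ⟨mem_univ _, h6⟩
        have h6 : (2 : ℝ) ≤ ((univ.filter fun t : Fin 2 → ZMod 2 =>
            ¬ Right (C ω) (out ω) dec (mat T t)).card : ℝ) := by exact_mod_cast h5
        rw [mul_comm]
        exact mul_le_mul_of_nonneg_left h6 (hp ω)
    have h4 := Finset.sum_filter_add_sum_filter_not (univ : Finset Ω) (fun ω => S T ω) p
    rw [hp1] at h4
    linarith
  -- the expected number of triples seen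
  have h1 : (1 - 2 * ε) * (r : ℝ) ^ 3 ≤ ∑ T : Fin r × Fin r × Fin r, ∑ ω with S T ω, p ω := by
    have h2 : ∑ _T : Fin r × Fin r × Fin r, (1 - 2 * ε) ≤
        ∑ T : Fin r × Fin r × Fin r, ∑ ω with S T ω, p ω :=
      Finset.sum_le_sum fun T _ => hT T
    rw [Finset.sum_const, nsmul_eq_mul, Finset.card_univ, Fintype.card_prod, Fintype.card_prod,
      Fintype.card_fin] at h2
    push_cast at h2
    calc (1 - 2 * ε) * (r : ℝ) ^ 3 = (r : ℝ) * ((r : ℝ) * (r : ℝ)) * (1 - 2 * ε) := by ring
      _ ≤ _ := h2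
  refine h1.trans ?_
  have h2 : ∑ T : Fin r × Fin r × Fin r, ∑ ω with S T ω, p ω =
      ∑ ω, p ω * ((univ.filter fun T : Fin r × Fin r × Fin r => S T ω).card : ℝ) := by
    simp only [Finset.sum_filter]
    rw [Finset.sum_comm]
    refine Finset.sum_congr rfl fun ω _ => ?_
    rw [← Finset.sum_filter, Finset.sum_const, nsmul_eq_mul, mul_comm]
  rw [h2]
  refine Finset.sum_le_sum fun ω _ => mul_le_mul_of_nonneg_left ?_ (hp ω)
  have h3 := seen_le_on ha (actM_isAction (Z := Z) a R) encM (C ω) (online (C ω))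
  have h3' : (univ.filter fun T : Fin r × Fin r × Fin r => S T ω) ⊆
      univ.filter fun T : Fin r × Fin r × Fin r => ∃ g ∈ online (C ω),
        SeesT a (vfixer (actM_isAction (Z := Z) a R) encM (C ω) g) T := by
    intro T hT
    rw [mem_filter] at hT ⊢
    obtain ⟨g, hg⟩ := hT.2
    exact ⟨mem_univ _, g, online_of_sees a ha0 (C ω) g T hg, hg⟩
  have h4 : numWiringsOn encM (C ω) (online (C ω)) (Set.range (actM (Z := Z) a R)) ≤
      numWiringsOn encM (C ω) (online (C ω)) (pull '' A) := by
    refine numWiringsOn_mono (C ω) _ ?_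
    rintro _ ⟨μ, rfl⟩
    exact ⟨_, hA _ (enc_mem a μ.1) _ (enc_mem a μ.2.1) _ (enc_mem a μ.2.2), rfl⟩
  exact_mod_cast ((card_le_card h3').trans h3).trans h4

end Pool.Agent.TH810.CW
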