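import Pool.Agent.TH810.CW.Apsp

/-!
# All-pairs shortest paths by repeated squaring, as a circuit
-/

namespace Pool.Agent.TH810.CW

open Finset
open Pool.Agent.H429R4.FW Pool.Agent.H429R4.TR
open Pool.Agent.H526R2.LS (dist walkWeight dist_le exists_walk)

set_option linter.unusedSectionVars false

section walks

variable {V : Type}

theorem ww_cons (W : V → V → ℕ∞) (a b : V) (l : List V) :
    walkWeight W (a :: b :: l) = W a b + walkWeight W (b :: l) := rfl

theorem ww_append (W : V → V → ℕ∞) (m : V) (q : List V) : ∀ p : List V,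
    walkWeight W (p ++ m :: q) = walkWeight W (p ++ [m]) + walkWeight W (m :: q)
  | [] => by
    rw [List.nil_append, List.nil_append]
    simp [walkWeight]
  | [a] => by
    rw [List.singleton_append, List.singleton_append, ww_cons, ww_cons]
    simp [walkWeight]
  | a :: b :: p => by
    have h := ww_append W m q (b :: p)
    rw [List.cons_append, List.cons_append] at h
    rw [List.cons_append, List.cons_append, List.cons_append, List.cons_append, ww_cons, ww_cons,
      h, add_assoc]

theorem exists_dup : ∀ l : List V, ¬ l.Nodup → ∃ p a q s, l = p ++ a :: (q ++ a :: s)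
  | [], h => absurd List.nodup_nil h
  | b :: t, h => by
    rw [List.nodup_cons, not_and_or, not_not] at h
    rcases h with h | h
    · obtain ⟨q, s, rfl⟩ := List.append_of_mem h
      exact ⟨[], b, q, s, rfl⟩
    · obtain ⟨p, a, q, s, rfl⟩ := exists_dup t h
      exact ⟨b :: p, a, q, s, rfl⟩

theorem head_app (p : List V) (m : V) (q q' : List V) :
    (p ++ m :: q).head? = (p ++ m :: q').head? := by
  cases p <;> rfl

theorem last_app (p p' : List V) (m : V) (q : List V) :
    (p ++ m :: q).getLast? = (p' ++ m :: q).getLast? := by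
  rw [List.getLast?_append_of_ne_nil _ (List.cons_ne_nil _ _),
    List.getLast?_append_of_ne_nil _ (List.cons_ne_nil _ _)]

theorem dist_triangle (W : V → V → ℕ∞) (u m v : V) : dist W u v ≤ dist W u m + dist W m v := by
  obtain ⟨l1, h1, h2, h3⟩ := exists_walk (W := W) (u := u) (v := m)
  obtain ⟨l2, h4, h5, h6⟩ := exists_walk (W := W) (u := m) (v := v)
  obtain ⟨p, rfl⟩ : ∃ p, l1 = p ++ [m] := by
    rw [List.getLast?_eq_some_iff] at h2
    exact h2
  obtain ⟨q, rfl⟩ : ∃ q, l2 = m :: q := by
    cases l2 with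
    | nil => exact absurd h4 (by simp)
    | cons b q =>
      rw [List.head?_cons, Option.some.injEq] at h4
      exact ⟨q, by rw [h4]⟩
  rw [← h3, ← h6, ← ww_append]
  refine dist_le _ ?_ ?_
  · rw [head_app p m q []]
    exact h1
  · rw [last_app p [] m q]
    exact h5

end walks

section dl

variable {V : Type} [Fintype V]

open Classical in
/-- the least weight of a walk with at most `2 ^ ℓ` steps -/
noncomputable def Dl (W : V → V → ℕ∞) : ℕ → V → V → ℕ∞
  | 0, u, v => if u = v then 0 else W u v
  | ℓ + 1, u, v => (univ : Finset V).inf fun m => Dl W ℓ u m + Dl W ℓ m v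

theorem Dl_succ_le (W : V → V → ℕ∞) (ℓ : ℕ) (u m v : V) :
    Dl W (ℓ + 1) u v ≤ Dl W ℓ u m + Dl W ℓ m v := by
  rw [Dl]
  exact Finset.inf_le (f := fun m => Dl W ℓ u m + Dl W ℓ m v) (mem_univ m)

theorem Dl_self (W : V → V → ℕ∞) (u : V) : ∀ ℓ, Dl W ℓ u u = 0
  | 0 => by rw [Dl, if_pos rfl]
  | ℓ + 1 => by
    refine le_antisymm ((Dl_succ_le W ℓ u u u).trans ?_) zero_le
    rw [Dl_self W u ℓ, add_zero]

theorem Dl_le_walk (W : V → V → ℕ∞) : ∀ (ℓ : ℕ) (l : List V) (u v : V), l.head? = some u →
    l.getLast? = some v → l.length ≤ 2 ^ ℓ + 1 → Dl W ℓ u v ≤ walkWeight W l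
  | 0, l, u, v, h1, h2, h3 => by
    match l, h1, h2, h3 with
    | [], h1, _, _ => exact absurd h1 (by simp)
    | [a], h1, h2, _ =>
      rw [List.head?_cons, Option.some.injEq] at h1
      rw [List.getLast?_singleton, Option.some.injEq] at h2
      rw [Dl, if_pos (h1.symm.trans h2)]
      exact zero_le
    | [a, b], h1, h2, _ =>
      rw [List.head?_cons, Option.some.injEq] at h1
      have h4 : b = v := by simpa using h2
      rw [ww_cons, Dl, h1, h4]
      split_ifs
      · exact zero_le
      · exact le_self_add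
    | a :: b :: c :: l, _, _, h3 =>
      simp only [List.length_cons, pow_zero] at h3
      omega
  | ℓ + 1, l, u, v, h1, h2, h3 => by
    by_cases h : l.length ≤ 2 ^ ℓ + 1
    · refine (Dl_succ_le W ℓ u v v).trans ?_
      rw [Dl_self, add_zero]
      exact Dl_le_walk W ℓ l u v h1 h2 h
    · obtain ⟨p, m, q, rfl, hp⟩ : ∃ p m q, l = p ++ m :: q ∧ p.length = 2 ^ ℓ := by
        have h4 : 2 ^ ℓ < l.length := by omega
        refine ⟨l.take (2 ^ ℓ), l[2 ^ ℓ], l.drop (2 ^ ℓ + 1), ?_, ?_⟩
        · rw [← List.drop_eq_getElem_cons h4, List.take_append_drop]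
        · rw [List.length_take]
          omega
      refine (Dl_succ_le W ℓ u m v).trans ?_
      rw [ww_append]
      rw [List.length_append, List.length_cons] at h3
      refine add_le_add (Dl_le_walk W ℓ _ u m ?_ ?_ ?_) (Dl_le_walk W ℓ _ m v ?_ ?_ ?_)
      · rw [head_app p m [] q]
        exact h1
      · rw [List.getLast?_concat]
      · rw [List.length_append, List.length_cons, List.length_nil]
        omega
      · rw [List.head?_cons]
      · rw [← h2]
        exact last_app [] p m q
      · rw [List.length_cons]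
        rw [pow_succ] at h3
        omega

theorem dist_le_Dl (W : V → V → ℕ∞) : ∀ (ℓ : ℕ) (u v : V), dist W u v ≤ Dl W ℓ u v
  | 0, u, v => by
    rw [Dl]
    split_ifs with h
    · rw [h]
      exact (dist_le [v] rfl rfl).trans le_rfl
    · refine (dist_le [u, v] rfl rfl).trans ?_
      rw [ww_cons]
      simp [walkWeight]
  | ℓ + 1, u, v => by
    rw [Dl]
    refine Finset.le_inf fun m _ => ?_
    exact (dist_triangle W u m v).trans (add_le_add (dist_le_Dl W ℓ u m) (dist_le_Dl W ℓ m v))

theorem Dl_le_any (W : V → V → ℕ∞) {K : ℕ} (hK : Fintype.card V ≤ 2 ^ K) : ∀ (N : ℕ)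
    (l : List V) (u v : V), l.length ≤ N → l.head? = some u → l.getLast? = some v →
      Dl W K u v ≤ walkWeight W l
  | 0, l, u, v, h0, h1, _ => by
    have h2 : l = [] := List.length_eq_zero_iff.1 (Nat.le_zero.1 h0)
    rw [h2] at h1
    exact absurd h1 (by simp)
  | N + 1, l, u, v, h0, h1, h2 => by
    by_cases hn : l.Nodup
    · have h3 := hn.length_le_card
      exact Dl_le_walk W K l u v h1 h2 (by omega)
    · obtain ⟨p, a, q, s, rfl⟩ := exists_dup l hn
      have h3 := Dl_le_any W hK N (p ++ a :: s) u v (by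
        rw [List.length_append, List.length_cons, List.length_append, List.length_cons] at h0
        rw [List.length_append, List.length_cons]
        omega) (by rw [← h1]; exact head_app p a _ _) (by
        rw [← h2]
        have e : p ++ a :: (q ++ a :: s) = (p ++ a :: q) ++ a :: s := by
          rw [List.append_assoc, List.cons_append]
        rw [e]
        exact last_app _ _ a s)
      refine h3.trans ?_
      have h4 := ww_append W a s (a :: q)
      rw [List.cons_append] at h4
      rw [ww_append W a s p, ww_append W a (q ++ a :: s) p, h4]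
      gcongr
      exact le_add_self

theorem Dl_eq_dist (W : V → V → ℕ∞) {K : ℕ} (hK : Fintype.card V ≤ 2 ^ K) (u v : V) :
    Dl W K u v = dist W u v := by
  refine le_antisymm ?_ (dist_le_Dl W K u v)
  obtain ⟨l, h1, h2, h3⟩ := exists_walk (W := W) (u := u) (v := v)
  rw [← h3]
  exact Dl_le_any W hK l.length l u v le_rfl h1 h2

end dl

/-- the gates of repeated squaring -/
abbrev SG (V : Type) (K : ℕ) : Type := (Fin (K + 1) × V × V) ⊕ (Fin K × V × V × V)

open Classical in
/-- Repeated squaring of the matrix of distances as a circuit. -/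
noncomputable abbrev sqC (V : Type) [Fintype V] [Nonempty V] (K : ℕ) :
    Circuit ℕ∞ (V × V) ℕ∞ Unit where
  Gate := SG V K
  finite := inferInstance
  rank
    | .inl (ℓ, _) => 2 * ℓ.1
    | .inr (ℓ, _) => 2 * ℓ.1 + 1
  read
    | .inl (⟨0, _⟩, e) => some e
    | .inl (⟨_ + 1, _⟩, _) => none
    | .inr _ => none
  wires
    | .inl (⟨0, _⟩, _) => 0
    | .inl (⟨ℓ + 1, h⟩, (u, v)) => (univ : Finset V).val.map fun m =>
        ((), .inr (⟨ℓ, Nat.lt_of_succ_lt_succ h⟩, u, m, v))
    | .inr (ℓ, (u, m, v)) => {((), .inl (ℓ.castSucc, u, m)), ((), .inl (ℓ.castSucc, m, v))}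
  rank_lt := by
    rintro (⟨⟨ℓ, hℓ⟩, u, v⟩ | ⟨ℓ, u, m, v⟩) e he
    · cases ℓ with
      | zero => simp at he
      | succ ℓ =>
        simp only [Multiset.mem_map] at he
        obtain ⟨m, _, rfl⟩ := he
        change 2 * ℓ + 1 < 2 * (ℓ + 1)
        omega
    · simp only [Multiset.insert_eq_cons, Multiset.mem_cons, Multiset.mem_singleton] at he
      rcases he with rfl | rfl <;> simp
  fn
    | .inl (⟨0, _⟩, e) => fun i _ => if e.1 = e.2 then 0 else i.getD ⊤
    | .inl (⟨_ + 1, _⟩, _) => fun _ m => (m.map fun e => e.2).inf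
    | .inr _ => fun _ m => (m.map fun e => e.2).sum
  out := .inl (0, Classical.arbitrary V, Classical.arbitrary V)

section squaring

variable {V : Type} [Fintype V] [Nonempty V] {K : ℕ}

theorem svalue (W : V → V → ℕ∞) : ∀ (ℓ : ℕ) (h : ℓ < K + 1) (u v : V),
    value encW (sqC V K) (.inl (⟨ℓ, h⟩, u, v)) W = Dl W ℓ u v
  | 0, h, u, v => by
    classical
    rw [value_eq, Dl]
    change (if u = v then (0 : ℕ∞) else W u v) = _
    congr
  | ℓ + 1, h, u, v => by
    classical
    rw [value_eq, Dl]
    change (Multiset.map (fun e : Unit × ℕ∞ => e.2) (Multiset.map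
      (fun e : Unit × SG V K => (e.1, value encW (sqC V K) e.2 W))
      (Multiset.map (fun m => ((), (Sum.inr (⟨ℓ, Nat.lt_of_succ_lt_succ h⟩, u, m, v) : SG V K)))
        (univ : Finset V).val))).inf = _
    rw [Multiset.map_map, Multiset.map_map]
    unfold Finset.inf
    refine congrArg Multiset.inf (Multiset.map_congr rfl fun m _ => ?_)
    change value encW (sqC V K) (.inr (⟨ℓ, Nat.lt_of_succ_lt_succ h⟩, u, m, v)) W = _
    rw [value_eq]
    change (Multiset.map (fun e : Unit × ℕ∞ => e.2) (Multiset.map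
      (fun e : Unit × SG V K => (e.1, value encW (sqC V K) e.2 W))
      {((), (Sum.inl (⟨ℓ, _⟩, u, m) : SG V K)), ((), (Sum.inl (⟨ℓ, _⟩, m, v) : SG V K))})).sum = _
    simp only [Multiset.insert_eq_cons, Multiset.map_cons, Multiset.map_singleton,
      Multiset.sum_cons, Multiset.sum_singleton]
    rw [svalue W ℓ (Nat.lt_of_succ_lt h) u m, svalue W ℓ (Nat.lt_of_succ_lt h) m v]

theorem svalue_inr (W : V → V → ℕ∞) (ℓ : Fin K) (u m v : V) :
    value encW (sqC V K) (.inr (ℓ, u, m, v)) W = Dl W ℓ.1 u m + Dl W ℓ.1 m v := by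
  classical
  rw [value_eq]
  change (Multiset.map (fun e : Unit × ℕ∞ => e.2) (Multiset.map
    (fun e : Unit × SG V K => (e.1, value encW (sqC V K) e.2 W))
    {((), (Sum.inl (ℓ.castSucc, u, m) : SG V K)), ((), (Sum.inl (ℓ.castSucc, m, v) : SG V K))})).sum
      = _
  simp only [Multiset.insert_eq_cons, Multiset.map_cons, Multiset.map_singleton,
    Multiset.sum_cons, Multiset.sum_singleton]
  have h : ∀ p q : V, value encW (sqC V K) (.inl (ℓ.castSucc, p, q)) W = Dl W ℓ.1 p q :=
    fun p q => svalue W ℓ.1 (Nat.lt_succ_of_lt ℓ.2) p q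
  rw [h, h]

theorem sqC_right (hK : Fintype.card V ≤ 2 ^ K) (W : V → V → ℕ∞) :
    RightD (sqC V K) (fun u v => .inl (Fin.last K, u, v)) id W := by
  intro u v
  rw [id, ← Dl_eq_dist W hK u v]
  exact svalue W K (Nat.lt_succ_self K) u v

theorem Dl_pull (π : Equiv.Perm V) (W : V → V → ℕ∞) : ∀ (ℓ : ℕ) (u v : V),
    Dl (pullW π W) ℓ u v = Dl W ℓ (π u) (π v)
  | 0, u, v => by
    classical
    rw [Dl, Dl]
    simp only [pullW, π.injective.eq_iff]
  | ℓ + 1, u, v => by
    rw [Dl, Dl]
    refine le_antisymm ?_ ?_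
    · refine Finset.le_inf fun m _ => ?_
      refine (Finset.inf_le (mem_univ (π.symm m))).trans ?_
      rw [Dl_pull π W ℓ, Dl_pull π W ℓ, Equiv.apply_symm_apply]
    · refine Finset.le_inf fun m _ => ?_
      refine (Finset.inf_le (mem_univ (π m))).trans ?_
      rw [Dl_pull π W ℓ, Dl_pull π W ℓ]

/-- the permutation of the gates given by a permutation of the vertices -/
def smap (π : Equiv.Perm V) : SG V K → SG V K
  | .inl (ℓ, u, v) => .inl (ℓ, π u, π v)
  | .inr (ℓ, u, m, v) => .inr (ℓ, π u, π m, π v)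

theorem svalue_inl' (W : V → V → ℕ∞) (ℓ : Fin (K + 1)) (u v : V) :
    value encW (sqC V K) (.inl (ℓ, u, v)) W = Dl W ℓ.1 u v := svalue W ℓ.1 ℓ.2 u v

theorem sq_view (π : Equiv.Perm V) (g : SG V K) :
    view encW (sqC V K) g (pullW π) = view encW (sqC V K) (smap π g) id := by
  classical
  rcases g with ⟨⟨ℓ, hℓ⟩, u, v⟩ | ⟨ℓ, u, m, v⟩
  · cases ℓ with
    | zero => exact Prod.ext rfl rfl
    | succ ℓ =>
      refine Prod.ext rfl ?_
      change (Multiset.map (fun e : Unit × SG V K =>
          (e.1, fun W => value encW (sqC V K) e.2 (pullW π W)))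
        (Multiset.map (fun m => ((), (Sum.inr (⟨ℓ, Nat.lt_of_succ_lt_succ hℓ⟩, u, m, v) : SG V K)))
          (univ : Finset V).val)) =
        (Multiset.map (fun e : Unit × SG V K =>
          (e.1, fun W => value encW (sqC V K) e.2 (id W)))
        (Multiset.map (fun m =>
          ((), (Sum.inr (⟨ℓ, Nat.lt_of_succ_lt_succ hℓ⟩, π u, m, π v) : SG V K)))
          (univ : Finset V).val))
      conv_rhs => rw [← Multiset.map_univ_val_equiv π]
      rw [Multiset.map_map, Multiset.map_map, Multiset.map_map]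
      refine Multiset.map_congr rfl fun m _ => ?_
      simp only [Function.comp_apply, svalue_inr, Dl_pull, id]
  · refine Prod.ext rfl ?_
    change (Multiset.map (fun e : Unit × SG V K =>
        (e.1, fun W => value encW (sqC V K) e.2 (pullW π W)))
      {((), (Sum.inl (ℓ.castSucc, u, m) : SG V K)), ((), (Sum.inl (ℓ.castSucc, m, v) : SG V K))}) =
      (Multiset.map (fun e : Unit × SG V K =>
        (e.1, fun W => value encW (sqC V K) e.2 (id W)))
      {((), (Sum.inl (ℓ.castSucc, π u, π m) : SG V K)),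
        ((), (Sum.inl (ℓ.castSucc, π m, π v) : SG V K))})
    simp only [Multiset.insert_eq_cons, Multiset.map_cons, Multiset.map_singleton, svalue_inl',
      Dl_pull, id]

theorem sq_wirings :
    numWirings encW (sqC V K) (pullW '' {f | ∃ π : Equiv.Perm V, f = π}) ≤
      K * Fintype.card V ^ 3 + (K + 1) * Fintype.card V ^ 2 := by
  have h1 : wirings encW (sqC V K) (pullW '' {f | ∃ π : Equiv.Perm V, f = π}) ⊆
      Set.range fun g : SG V K => view encW (sqC V K) g id := by
    rintro _ ⟨g, _, ⟨_, ⟨π, rfl⟩, rfl⟩, rfl⟩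
    exact ⟨smap π g, (sq_view π g).symm⟩
  unfold numWirings
  refine (Nat.card_mono (Set.finite_range _) h1).trans ?_
  refine (Finite.card_range_le _).trans ?_
  rw [Nat.card_eq_fintype_card]
  simp only [Fintype.card_sum, Fintype.card_prod, Fintype.card_fin]
  exact le_of_eq (by ring)

end squaring

/-- Repeated squaring has few wirings up to all relabelings of the vertices. -/
theorem squaring_bound (V : Type) [Fintype V] [Nonempty V] :
    ∃ (C : Circuit ℕ∞ (V × V) ℕ∞ Unit) (out : V → V → C.Gate),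
      (∀ W : V → V → ℕ∞, RightD C out id W) ∧
      numWirings encW C (pullW '' {f | ∃ π : Equiv.Perm V, f = π}) ≤
        Nat.clog 2 (Fintype.card V) * Fintype.card V ^ 3 +
          (Nat.clog 2 (Fintype.card V) + 1) * Fintype.card V ^ 2 :=
  ⟨sqC V (Nat.clog 2 (Fintype.card V)), fun u v => .inl (Fin.last _, u, v),
    sqC_right (Nat.le_pow_clog (by norm_num) _), sq_wirings⟩

end Pool.Agent.TH810.CW
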